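import Mathlib

set_option autoImplicit false

namespace Pool.Agent.Lib.FDD

open Finset

variable {ι : Type*} [DecidableEq ι]

/-- `y` is a subset sum of the weights `w` over `s` -/
def SSw (w : ι → ℕ) (s : Finset ι) (y : ℕ) : Prop := ∃ B ⊆ s, ∑ i ∈ B, w i = y

lemma SSw.mono {w : ι → ℕ} {s t : Finset ι} {y : ℕ} (h : SSw w s y) (hst : s ⊆ t) : SSw w t y := by
  obtain ⟨B, hB, hs⟩ := h
  exact ⟨B, hB.trans hst, hs⟩

lemma SSw.symm {w : ι → ℕ} {s : Finset ι} {y : ℕ} (h : SSw w s y) :
    SSw w s (∑ i ∈ s, w i - y) := by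
  obtain ⟨B, hB, hs⟩ := h
  refine ⟨s \ B, Finset.sdiff_subset, ?_⟩
  have := Finset.sum_sdiff (f := w) hB
  omega

/-- two-sums of a set with few missing elements -/
lemma two_sum (W : Finset ℕ) (K M0 x : ℕ) (hW : (Finset.Icc 1 K \ W).card ≤ M0)
    (hx1 : 2 * M0 + 3 ≤ x) (hx2 : x + 2 * M0 + 1 ≤ 2 * K) :
    ∃ y ∈ W, ∃ z ∈ W, y < z ∧ y + z = x := by
  classical
  by_contra hcon
  push Not at hcon
  set Y := Finset.Icc (max 1 (x - K)) ((x - 1) / 2) with hY
  have hYcard : M0 + 1 ≤ Y.card := by
    rw [hY, Nat.card_Icc]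
    rcases le_total 1 (x - K) with h | h
    · rw [max_eq_right h]; omega
    · rw [max_eq_left h]; omega
  have hmem : ∀ y ∈ Y, 1 ≤ y ∧ x ≤ y + K ∧ 2 * y < x := by
    intro y hy
    rw [hY, Finset.mem_Icc] at hy
    have h1 := le_max_left 1 (x - K)
    have h2 := le_max_right 1 (x - K)
    omega
  have : Y.card ≤ (Finset.Icc 1 K \ W).card := by
    refine Finset.card_le_card_of_injOn (fun y => if y ∈ W then x - y else y) ?_ ?_
    · intro y hy
      have hy' := hmem y (Finset.mem_coe.mp hy)
      refine Finset.mem_coe.mpr ?_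
      show (if y ∈ W then x - y else y) ∈ Finset.Icc 1 K \ W
      split_ifs with h
      · rw [Finset.mem_sdiff, Finset.mem_Icc]
        refine ⟨by omega, ?_⟩
        intro h2
        exact hcon y h (x - y) h2 (by omega) (by omega)
      · rw [Finset.mem_sdiff, Finset.mem_Icc]
        exact ⟨by omega, h⟩
    · intro y hy z hz hyz
      have hy' := hmem y (Finset.mem_coe.mp hy)
      have hz' := hmem z (Finset.mem_coe.mp hz)
      simp only at hyz
      split_ifs at hyz <;> omega
  omega

/-- greedy extension -/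
lemma extend (w : ι → ℕ) (Q : Finset ι) (a b : ℕ) (hab : a ≤ b)
    (hQ : ∀ y, a ≤ y → y ≤ b → SSw w Q y) (k : ℕ) :
    ∀ P : Finset ι, P.card = k → Disjoint Q P →
    (∀ x ∈ P, w x ≤ (b - a + 1) + ∑ y ∈ P.filter (fun y => w y < w x), w y) →
    ∀ y, a ≤ y → y ≤ b + ∑ x ∈ P, w x → SSw w (Q ∪ P) y := by
  induction k with
  | zero =>
    intro P hP _ _ y h1 h2
    rw [Finset.card_eq_zero] at hP
    subst hP
    rw [Finset.union_empty]
    exact hQ y h1 (by simpa using h2)
  | succ k ih =>
    intro P hP hdis hcond y hy1 hy2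
    have hne : P.Nonempty := Finset.card_pos.mp (by omega)
    obtain ⟨x, hx, hmax⟩ := Finset.exists_max_image P w hne
    have hPe : (P.erase x).card = k := by rw [Finset.card_erase_of_mem hx]; omega
    have hdis' : Disjoint Q (P.erase x) :=
      Finset.disjoint_of_subset_right (Finset.erase_subset _ _) hdis
    have hsum := Finset.add_sum_erase P w hx
    have ih' := ih (P.erase x) hPe hdis' (by
      intro z hz
      have h1 := hcond z (Finset.mem_of_mem_erase hz)
      have h2 : (P.erase x).filter (fun y => w y < w z) = P.filter (fun y => w y < w z) := by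
        ext t
        simp only [Finset.mem_filter, Finset.mem_erase]
        constructor
        · rintro ⟨⟨_, h3⟩, h4⟩; exact ⟨h3, h4⟩
        · rintro ⟨h3, h4⟩
          refine ⟨⟨?_, h3⟩, h4⟩
          rintro rfl
          have := hmax z (Finset.mem_of_mem_erase hz)
          omega
      rw [h2]; exact h1)
    have hwx : w x ≤ (b - a + 1) + ∑ y ∈ P.erase x, w y := by
      refine (hcond x hx).trans (Nat.add_le_add_left ?_ _)
      refine Finset.sum_le_sum_of_subset ?_
      intro t ht
      rw [Finset.mem_filter] at ht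
      rw [Finset.mem_erase]
      refine ⟨?_, ht.1⟩
      rintro rfl
      exact lt_irrefl _ ht.2
    have hsub : Q ∪ P.erase x ⊆ Q ∪ P := Finset.union_subset_union_right (Finset.erase_subset _ _)
    by_cases hcase : y ≤ b + ∑ z ∈ P.erase x, w z
    · exact (ih' y hy1 hcase).mono hsub
    · push Not at hcase
      obtain ⟨B, hB, hBs⟩ := ih' (y - w x) (by omega) (by omega)
      have hxB : x ∉ B := by
        intro h
        rcases Finset.mem_union.mp (hB h) with h1 | h1
        · exact (Finset.disjoint_left.mp hdis h1) hx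
        · exact (Finset.notMem_erase x P) h1
      refine ⟨insert x B, ?_, ?_⟩
      · exact Finset.insert_subset (Finset.mem_union_right _ hx) (hB.trans hsub)
      · rw [Finset.sum_insert hxB, hBs]
        omega

/-- total weight lower bound -/
lemma weight_lower (w : ι → ℕ) (X : Finset ι) (hfib : ∀ v, 1 ≤ v → (X.filter (fun x => w x = v)).card ≤ 2)
    (h0 : ∀ x ∈ X, 1 ≤ w x) (h t0 : ℕ) (ht : t0 ≤ h) :
    (h : ℤ) * X.card - h * (h - 1) + (2 * t0 - ((X.filter (fun x => w x ≤ t0)).card : ℤ)) * (h - t0)
      ≤ ∑ x ∈ X, (w x : ℤ) := by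
  classical
  have hcnt : ∀ s t : ℕ, s ≤ t →
      ((X.filter (fun x => w x ≤ t)).card : ℤ) ≤ (X.filter (fun x => w x ≤ s)).card + 2 * (t - s) := by
    intro s t hst
    induction t, hst using Nat.le_induction with
    | base => simp
    | succ t hst ih =>
      have h1 : X.filter (fun x => w x ≤ t + 1)
          = X.filter (fun x => w x ≤ t) ∪ X.filter (fun x => w x = t + 1) := by
        ext x
        simp only [Finset.mem_filter, Finset.mem_union]
        constructor
        · rintro ⟨h1, h2⟩
          rcases Nat.lt_or_ge t (w x) with h3 | h3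
          · right; exact ⟨h1, by omega⟩
          · left; exact ⟨h1, h3⟩
        · rintro (⟨h1, h2⟩ | ⟨h1, h2⟩)
          · exact ⟨h1, by omega⟩
          · exact ⟨h1, by omega⟩
      have h2 := Finset.card_union_le (X.filter (fun x => w x ≤ t)) (X.filter (fun x => w x = t + 1))
      rw [← h1] at h2
      have h3 := hfib (t + 1) (by omega)
      push_cast
      have h4 : ((X.filter (fun x => w x ≤ t + 1)).card : ℤ)
          ≤ (X.filter (fun x => w x ≤ t)).card + 2 := by exact_mod_cast h2.trans (by omega)
      linarith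
  have hz : (X.filter (fun x => w x ≤ 0)).card = 0 := by
    rw [Finset.card_eq_zero, Finset.filter_eq_empty_iff]
    intro x hx
    have := h0 x hx
    omega
  -- sum of weights ≥ sum over t < h of the number of x with t < w x
  have h1 : ∑ t ∈ Finset.range h, ((X.filter (fun x => t < w x)).card : ℤ) ≤ ∑ x ∈ X, (w x : ℤ) := by
    have e1 : ∑ t ∈ Finset.range h, (X.filter (fun x => t < w x)).card
        = ∑ x ∈ X, ((Finset.range h).filter (fun t => t < w x)).card := by
      simp_rw [Finset.card_filter]
      rw [Finset.sum_comm]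
    have e2 : ∑ x ∈ X, ((Finset.range h).filter (fun t => t < w x)).card ≤ ∑ x ∈ X, w x := by
      refine Finset.sum_le_sum (fun x _ => ?_)
      have : (Finset.range h).filter (fun t => t < w x) ⊆ Finset.range (w x) := by
        intro t ht
        exact Finset.mem_range.mpr (Finset.mem_filter.mp ht).2
      simpa using Finset.card_le_card this
    have e3 := e1.le.trans e2
    exact_mod_cast e3
  have h2 : ∀ t : ℕ, ((X.filter (fun x => t < w x)).card : ℤ)
      = X.card - (X.filter (fun x => w x ≤ t)).card := by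
    intro t
    have := Finset.card_filter_add_card_filter_not (s := X) (fun x => w x ≤ t)
    have h3 : X.filter (fun x => ¬ w x ≤ t) = X.filter (fun x => t < w x) := by
      ext x; simp
    rw [h3] at this
    have h4 : (((X.filter (fun x => w x ≤ t)).card + (X.filter (fun x => t < w x)).card : ℕ) : ℤ)
        = X.card := by rw [this]
    push_cast at h4
    linarith
  set q : ℤ := 2 * t0 - ((X.filter (fun x => w x ≤ t0)).card : ℤ) with hq
  have h3 : ∀ t ∈ Finset.range h, (X.card : ℤ) - 2 * t + (if t0 ≤ t then q else 0)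
      ≤ ((X.filter (fun x => t < w x)).card : ℤ) := by
    intro t _
    rw [h2 t]
    split_ifs with hc
    · have := hcnt t0 t hc
      rw [hq]; linarith
    · have := hcnt 0 t (Nat.zero_le _)
      rw [hz] at this
      push_cast at this
      linarith
  have h4 : ∑ t ∈ Finset.range h, ((X.card : ℤ) - 2 * t + (if t0 ≤ t then q else 0))
      = (h : ℤ) * X.card - h * (h - 1) + q * (h - t0) := by
    clear h1 h3
    induction h, ht using Nat.le_induction with
    | base =>
      have e1 : ∑ t ∈ Finset.range t0, ((X.card : ℤ) - 2 * t + (if t0 ≤ t then q else 0))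
          = ∑ t ∈ Finset.range t0, ((X.card : ℤ) - 2 * t) := by
        refine Finset.sum_congr rfl (fun t ht => ?_)
        rw [if_neg (by have := Finset.mem_range.mp ht; omega)]; ring
      rw [e1]
      have e2 : ∀ k : ℕ, ∑ t ∈ Finset.range k, ((X.card : ℤ) - 2 * t) = k * X.card - k * (k - 1) := by
        intro k
        induction k with
        | zero => simp
        | succ k ih => rw [Finset.sum_range_succ, ih]; push_cast; ring
      rw [e2]; ring
    | succ k hk ih =>
      rw [Finset.sum_range_succ, ih, if_pos hk]; push_cast; ring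
  rw [← h4]
  exact (Finset.sum_le_sum h3).trans h1

/-- simple form -/
lemma weight_lower_sq (w : ι → ℕ) (X : Finset ι)
    (hfib : ∀ v, 1 ≤ v → (X.filter (fun x => w x = v)).card ≤ 2)
    (h0 : ∀ x ∈ X, 1 ≤ w x) : X.card ^ 2 + 2 * X.card ≤ 4 * ∑ x ∈ X, w x := by
  have h1 := weight_lower w X hfib h0 ((X.card + 1) / 2) 0 (Nat.zero_le _)
  have hz : (X.filter (fun x => w x ≤ 0)).card = 0 := by
    rw [Finset.card_eq_zero, Finset.filter_eq_empty_iff]
    intro x hx
    have := h0 x hx
    omega
  rw [hz] at h1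
  obtain ⟨n, hn⟩ : ∃ n, X.card = n := ⟨_, rfl⟩
  rw [hn] at h1 ⊢
  have h2 : (∑ x ∈ X, (w x : ℤ)) = ((∑ x ∈ X, w x : ℕ) : ℤ) := by push_cast; rfl
  rw [h2] at h1
  zify
  obtain ⟨k, hk | hk⟩ := Nat.even_or_odd' n
  · have h3 : (n + 1) / 2 = k := by omega
    rw [h3] at h1
    rw [hk] at h1 ⊢
    push_cast at h1 ⊢
    nlinarith
  · have h3 : (n + 1) / 2 = k + 1 := by omega
    rw [h3] at h1
    rw [hk] at h1 ⊢
    push_cast at h1 ⊢
    nlinarith

end Pool.Agent.Lib.FDD
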