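import Mathlib
import Pool.Agent.Lib.MP_fddcb9_nt.Cover

set_option autoImplicit false

namespace Pool.Agent.Lib.FDD

open Finset

variable {p : ℕ}

/-- absolute value of the centered representative -/
def wt (x : ZMod p) : ℕ := x.valMinAbs.natAbs

lemma wt_pos (x : ZMod p) (hx : x ≠ 0) : 1 ≤ wt x := by
  unfold wt
  rw [Nat.one_le_iff_ne_zero, Int.natAbs_ne_zero]
  intro h
  exact hx ((ZMod.valMinAbs_eq_zero _).mp h)

lemma wt_fib (X : Finset (ZMod p)) (v : ℕ) : (X.filter (fun x => wt x = v)).card ≤ 2 := by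
  classical
  refine (Finset.card_le_card (t := {((v : ℤ) : ZMod p), ((-(v : ℤ) : ℤ) : ZMod p)}) ?_).trans
    Finset.card_le_two
  intro x hx
  have h := (Finset.mem_filter.mp hx).2
  unfold wt at h
  rw [Finset.mem_insert, Finset.mem_singleton]
  have hx' := ZMod.coe_valMinAbs x
  rcases Int.natAbs_eq x.valMinAbs with h1 | h1
  · left; rw [h] at h1; rw [← h1]; exact hx'.symm
  · right; rw [h] at h1; rw [← h1]; exact hx'.symm

lemma wt_le (hp : 0 < p) (x : ZMod p) : 2 * wt x ≤ p := by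
  have hne : NeZero p := ⟨hp.ne'⟩
  have := ZMod.natAbs_valMinAbs_le x
  unfold wt
  omega

/-- if the subset sums of the weights contain `p` consecutive integers then the subset sums are
everything -/
lemma complete_of_interval (hp : 0 < p) (A : Finset (ZMod p)) (a b : ℕ)
    (hab : a + p ≤ b + 1) (h : ∀ y, a ≤ y → y ≤ b → SSw wt A y) : ∀ c : ZMod p, c ∈ A.subsetSum := by
  classical
  have hne : NeZero p := ⟨hp.ne'⟩
  intro c
  set A2 := A.filter (fun x => x.valMinAbs < 0) with hA2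
  set σ : ℕ := ∑ x ∈ A2, wt x with hσ
  -- choose y in [a, b] congruent to c + σ
  obtain ⟨y, hy1, hy2, hy3⟩ : ∃ y : ℕ, a ≤ y ∧ y ≤ b ∧ (y : ZMod p) = c + σ := by
    set z : ZMod p := c + σ - a with hz
    refine ⟨a + z.val, Nat.le_add_right _ _, ?_, ?_⟩
    · have := ZMod.val_lt z; omega
    · push_cast
      rw [ZMod.natCast_zmod_val, hz]; ring
  obtain ⟨B, hB, hBs⟩ := h y hy1 hy2
  rw [Finset.mem_subsetSum_iff]
  refine ⟨(B.filter (fun x => ¬ x.valMinAbs < 0)) ∪ (A2 \ B), ?_, ?_⟩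
  · refine Finset.union_subset ((Finset.filter_subset _ _).trans hB) ?_
    exact Finset.sdiff_subset.trans (Finset.filter_subset _ _)
  · have hpos : ∀ x : ZMod p, ¬ x.valMinAbs < 0 → x = (wt x : ZMod p) := by
      intro x hx
      push Not at hx
      have h1 := ZMod.coe_valMinAbs x
      conv_lhs => rw [← h1]
      unfold wt
      have h2 : ((x.valMinAbs.natAbs : ℕ) : ℤ) = x.valMinAbs := Int.natAbs_of_nonneg hx
      conv_lhs => rw [← h2]
      rw [Int.cast_natCast]
    have hneg : ∀ x : ZMod p, x.valMinAbs < 0 → x = -(wt x : ZMod p) := by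
      intro x hx
      have h1 := ZMod.coe_valMinAbs x
      conv_lhs => rw [← h1]
      unfold wt
      have h2 : ((x.valMinAbs.natAbs : ℕ) : ℤ) = -x.valMinAbs := Int.ofNat_natAbs_of_nonpos hx.le
      have h3 : x.valMinAbs = -((x.valMinAbs.natAbs : ℕ) : ℤ) := by rw [h2]; ring
      conv_lhs => rw [h3]
      rw [Int.cast_neg, Int.cast_natCast]
    have hdisj : Disjoint (B.filter (fun x => ¬ x.valMinAbs < 0)) (A2 \ B) := by
      rw [Finset.disjoint_left]
      intro x hx hx2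
      exact (Finset.mem_sdiff.mp hx2).2 (Finset.mem_filter.mp hx).1
    rw [Finset.sum_union hdisj]
    have e1 : ∑ x ∈ B.filter (fun x => ¬ x.valMinAbs < 0), x
        = ((∑ x ∈ B.filter (fun x => ¬ x.valMinAbs < 0), wt x : ℕ) : ZMod p) := by
      push_cast
      exact Finset.sum_congr rfl (fun x hx => hpos x (Finset.mem_filter.mp hx).2)
    have e2 : ∑ x ∈ A2 \ B, x = -((∑ x ∈ A2 \ B, wt x : ℕ) : ZMod p) := by
      push_cast
      rw [← Finset.sum_neg_distrib]
      exact Finset.sum_congr rfl (fun x hx =>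
        hneg x (Finset.mem_filter.mp (Finset.mem_sdiff.mp hx).1).2)
    have e3 : (∑ x ∈ A2 \ B, wt x) + ∑ x ∈ B.filter (fun x => x.valMinAbs < 0), wt x = σ := by
      have h1 : B.filter (fun x => x.valMinAbs < 0) = A2 ∩ B := by
        ext x
        simp only [hA2, Finset.mem_filter, Finset.mem_inter]
        constructor
        · rintro ⟨h1, h2⟩; exact ⟨⟨hB h1, h2⟩, h1⟩
        · rintro ⟨⟨_, h2⟩, h3⟩; exact ⟨h3, h2⟩
      rw [h1, hσ]
      have h2 := Finset.sum_sdiff (s₁ := A2 ∩ B) (s₂ := A2) (f := wt) Finset.inter_subset_left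
      have h3 : A2 \ (A2 ∩ B) = A2 \ B := by ext x; simp
      rw [h3] at h2
      exact h2
    have e4 : (∑ x ∈ B.filter (fun x => x.valMinAbs < 0), wt x) +
        ∑ x ∈ B.filter (fun x => ¬ x.valMinAbs < 0), wt x = y := by
      rw [Finset.sum_filter_add_sum_filter_not, hBs]
    rw [e1, e2]
    have e3' : ((∑ x ∈ A2 \ B, wt x : ℕ) : ZMod p)
        + ((∑ x ∈ B.filter (fun x => x.valMinAbs < 0), wt x : ℕ) : ZMod p) = (σ : ZMod p) := by
      rw [← e3]; push_cast; rfl
    have e4' : ((∑ x ∈ B.filter (fun x => x.valMinAbs < 0), wt x : ℕ) : ZMod p) +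
        ((∑ x ∈ B.filter (fun x => ¬ x.valMinAbs < 0), wt x : ℕ) : ZMod p) = (y : ZMod p) := by
      rw [← e4]; push_cast; rfl
    have e5 : (y : ZMod p) - σ = c := by rw [hy3]; ring
    rw [← e5, ← e3', ← e4']
    ring

/-- choice of a representative element with a given weight -/
lemma exists_rep_fun (X : Finset (ZMod p)) :
    ∃ g : ℕ → ZMod p, ∀ v, (∃ x ∈ X, wt x = v) → g v ∈ X ∧ wt (g v) = v := by
  classical
  have : ∀ v : ℕ, ∃ x : ZMod p, (∃ x ∈ X, wt x = v) → x ∈ X ∧ wt x = v := by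
    intro v
    by_cases h : ∃ x ∈ X, wt x = v
    · obtain ⟨x, hx, hv⟩ := h
      exact ⟨x, fun _ => ⟨hx, hv⟩⟩
    · exact ⟨0, fun h' => absurd h' h⟩
  choose g hg using this
  exact ⟨g, hg⟩

/-- counting completely missing values -/
lemma missing_le (X : Finset (ZMod p)) (h0 : ∀ x ∈ X, 1 ≤ wt x) (L K : ℕ) (hKL : K ≤ L)
    (V : Finset ℕ) (hV : V = (Finset.Icc 1 K).filter (fun v => ∃ x ∈ X, wt x = v)) :
    2 * (Finset.Icc 1 K \ V).card + (X.filter (fun x => wt x ≤ L)).card ≤ 2 * L := by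
  classical
  have h1 : X.filter (fun x => wt x ≤ L) ⊆
      (Finset.Icc 1 L \ (Finset.Icc 1 K \ V)).biUnion (fun v => X.filter (fun x => wt x = v)) := by
    intro x hx
    obtain ⟨hx1, hx2⟩ := Finset.mem_filter.mp hx
    rw [Finset.mem_biUnion]
    refine ⟨wt x, ?_, Finset.mem_filter.mpr ⟨hx1, rfl⟩⟩
    rw [Finset.mem_sdiff, Finset.mem_Icc]
    refine ⟨⟨h0 x hx1, hx2⟩, ?_⟩
    intro h
    rw [Finset.mem_sdiff] at h
    apply h.2
    rw [hV, Finset.mem_filter]
    exact ⟨h.1, x, hx1, rfl⟩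
  have h2 := Finset.card_le_card h1
  have h3 : ((Finset.Icc 1 L \ (Finset.Icc 1 K \ V)).biUnion
      (fun v => X.filter (fun x => wt x = v))).card
      ≤ (Finset.Icc 1 L \ (Finset.Icc 1 K \ V)).card * 2 :=
    Finset.card_biUnion_le_card_mul _ _ _ (fun v _ => wt_fib X v)
  have h4 : (Finset.Icc 1 K \ V) ⊆ Finset.Icc 1 L := by
    intro v hv
    have := Finset.mem_Icc.mp (Finset.mem_sdiff.mp hv).1
    rw [Finset.mem_Icc]; omega
  have h5 := Finset.card_sdiff_of_subset h4
  have h6 := Finset.card_le_card h4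
  rw [Nat.card_Icc] at h5 h6
  omega

end Pool.Agent.Lib.FDD
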