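import Mathlib
import Pool.Agent.Lib.MP_fddcb9_nt.Final

set_option autoImplicit false

namespace Pool.Agent.Lib.FDD

open Finset

variable {p : ℕ}

lemma twosum_reps (X : Finset (ZMod p)) (K M0 : ℕ) (V : Finset ℕ)
    (hV : V = (Finset.Icc 1 K).filter (fun v => ∃ x ∈ X, wt x = v))
    (hM0 : (Finset.Icc 1 K \ V).card ≤ M0) (g : ℕ → ZMod p)
    (hg : ∀ v, (∃ x ∈ X, wt x = v) → g v ∈ X ∧ wt (g v) = v) (y : ℕ)
    (hy1 : 2 * M0 + 3 ≤ y) (hy2 : y + 2 * M0 + 1 ≤ 2 * K) : SSw wt (V.image g) y := by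
  classical
  obtain ⟨v, hv, z, hz, hvz, hs⟩ := two_sum V K M0 y hM0 hy1 hy2
  have hv' : wt (g v) = v := by
    rw [hV, Finset.mem_filter] at hv; exact (hg v hv.2).2
  have hz' : wt (g z) = z := by
    rw [hV, Finset.mem_filter] at hz; exact (hg z hz.2).2
  have hne : g v ≠ g z := by
    intro h; rw [h, hz'] at hv'; omega
  refine ⟨{g v, g z}, ?_, ?_⟩
  · intro t ht
    rw [Finset.mem_insert, Finset.mem_singleton] at ht
    rcases ht with rfl | rfl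
    · exact Finset.mem_image_of_mem g hv
    · exact Finset.mem_image_of_mem g hz
  · rw [Finset.sum_pair hne, hv', hz']; exact hs

lemma sum_reps (X : Finset (ZMod p)) (K : ℕ) (V : Finset ℕ)
    (hV : V = (Finset.Icc 1 K).filter (fun v => ∃ x ∈ X, wt x = v)) (g : ℕ → ZMod p)
    (hg : ∀ v, (∃ x ∈ X, wt x = v) → g v ∈ X ∧ wt (g v) = v) :
    2 * ∑ x ∈ V.image g, wt x ≤ K * (K + 1) := by
  classical
  have hinj : Set.InjOn g (V : Set ℕ) := by
    intro v hv z hz h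
    have hv' := (Finset.mem_filter.mp (hV ▸ Finset.mem_coe.mp hv)).2
    have hz' := (Finset.mem_filter.mp (hV ▸ Finset.mem_coe.mp hz)).2
    have e1 := (hg v hv').2
    have e2 := (hg z hz').2
    rw [h, e2] at e1
    exact e1.symm
  rw [Finset.sum_image hinj]
  have h1 : ∑ v ∈ V, wt (g v) = ∑ v ∈ V, v := by
    refine Finset.sum_congr rfl (fun v hv => ?_)
    have hv2 := hv
    rw [hV] at hv2
    exact (hg v (Finset.mem_filter.mp hv2).2).2
  rw [h1]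
  have h2 : ∑ v ∈ V, v ≤ ∑ v ∈ Finset.range (K + 1), v := by
    refine Finset.sum_le_sum_of_subset ?_
    intro v hv
    rw [hV, Finset.mem_filter, Finset.mem_Icc] at hv
    rw [Finset.mem_range]; omega
  have h3 := Finset.sum_range_id_mul_two (K + 1)
  have h4 : (K + 1) * (K + 1 - 1) = K * (K + 1) := by rw [Nat.add_sub_cancel]; ring
  rw [h4] at h3
  omega

lemma norm_upper [hp : Fact p.Prime] (A R : Finset (ZMod p)) (hRA : R ⊆ A) (h0 : (0 : ZMod p) ∉ A)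
    (n : ℕ) (hn : A.card = n) (L : ℕ) (h74 : 74 * n ≤ 100 * R.card)
    (h25 : 25 * L ≤ 13 * R.card) (hRL : ∀ x ∈ R, wt x ≤ L)
    (hp4 : 4 * p ≤ n ^ 2 + 4 * n + 12) (hbig : 1000000 ≤ n) (hinc : A.subsetSum.card < p) :
    100 * ∑ x ∈ A, wt x ≤ 100 * p + 9 * n := by
  classical
  have hne : NeZero p := ⟨hp.out.ne_zero⟩
  have hA0 : ∀ x ∈ A, 1 ≤ wt x := fun x hx => wt_pos x (by rintro rfl; exact h0 hx)
  have hR0 : ∀ x ∈ R, 1 ≤ wt x := fun x hx => hA0 x (hRA hx)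
  obtain ⟨ρ, hρ⟩ : ∃ ρ, R.card = ρ := ⟨_, rfl⟩
  have hρn : ρ ≤ n := by rw [← hρ, ← hn]; exact Finset.card_le_card hRA
  rw [hρ] at h74 h25
  obtain ⟨K, hK⟩ : ∃ K, 4 * L / 5 = K := ⟨_, rfl⟩
  set V := (Finset.Icc 1 K).filter (fun v => ∃ x ∈ R, wt x = v) with hV
  obtain ⟨g, hg⟩ := exists_rep_fun R
  have hmiss := missing_le R hR0 L K (by omega) V hV
  have hRfil : R.filter (fun x => wt x ≤ L) = R := Finset.filter_true_of_mem hRL
  rw [hRfil, hρ] at hmiss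
  obtain ⟨M0, hM0⟩ : ∃ M0, (2 * L - ρ) / 2 = M0 := ⟨_, rfl⟩
  have hM0' : (Finset.Icc 1 K \ V).card ≤ M0 := by omega
  set Q := V.image g with hQ
  have hQR : Q ⊆ R := by
    intro x hx
    obtain ⟨v, hv, rfl⟩ := Finset.mem_image.mp hx
    exact (hg v (Finset.mem_filter.mp hv).2).1
  have hQP : Q ∪ (R \ Q) = R := Finset.union_sdiff_of_subset hQR
  obtain ⟨a, ha⟩ : ∃ a, 2 * M0 + 3 = a := ⟨_, rfl⟩
  obtain ⟨b, hb⟩ : ∃ b, 2 * K - 2 * M0 - 1 = b := ⟨_, rfl⟩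
  have hab : a ≤ b := by omega
  have hLen : L ≤ b - a + 1 := by omega
  have hext := extend wt Q a b hab
    (fun y hy1 hy2 => twosum_reps R K M0 V hV hM0' g hg y (by omega) (by omega))
    (R \ Q).card (R \ Q) rfl Finset.disjoint_sdiff
    (fun x hx => ((hRL x (Finset.mem_sdiff.mp hx).1).trans hLen).trans (Nat.le_add_right _ _))
  rw [hQP] at hext
  have hsumQ := sum_reps R K V hV g hg
  rw [← hQ] at hsumQ
  have hsplit : ∑ x ∈ R \ Q, wt x + ∑ x ∈ Q, wt x = ∑ x ∈ R, wt x := Finset.sum_sdiff hQR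
  obtain ⟨NR, hNR⟩ : ∃ NR, ∑ x ∈ R, wt x = NR := ⟨_, rfl⟩
  obtain ⟨SQ, hSQ⟩ : ∃ SQ, ∑ x ∈ Q, wt x = SQ := ⟨_, rfl⟩
  obtain ⟨SP, hSP⟩ : ∃ SP, ∑ x ∈ R \ Q, wt x = SP := ⟨_, rfl⟩
  rw [hSQ] at hsumQ
  rw [hSP] at hext
  rw [hNR, hSQ, hSP] at hsplit
  have hlow := weight_lower_sq wt R (fun v _ => wt_fib R v) hR0
  rw [hρ, hNR] at hlow
  have hKρ : 125 * K ≤ 52 * ρ := by omega
  have hK2 : K * (K + 1) ≤ NR := by nlinarith
  have hfull : ∀ y, a ≤ y → y + a ≤ NR → SSw wt R y := by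
    intro y hy1 hy2
    by_cases hc : y ≤ b + SP
    · exact hext y hy1 hc
    · have h1 := (hext (NR - y) (by omega) (by omega)).symm
      rw [hNR] at h1
      have h2 : NR - (NR - y) = y := by omega
      rwa [h2] at h1
  have haρ : 50 * a ≤ 2 * ρ + 150 := by omega
  have hNRbig : 2 * a ≤ NR := by nlinarith
  have h2N : p ≤ 2 * (NR - a - a + 1) := by
    have : p + 4 * a ≤ 2 * NR := by nlinarith
    omega
  have hext2 := extend wt R a (NR - a) (by omega) (fun y h1 h2 => hfull y h1 (by omega))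
    (A \ R).card (A \ R) rfl Finset.disjoint_sdiff
    (fun x _ => by
      have := wt_le hp.out.pos x
      have h3 : wt x ≤ NR - a - a + 1 := by omega
      exact h3.trans (Nat.le_add_right _ _))
  rw [Finset.union_sdiff_of_subset hRA] at hext2
  have hsplit2 : ∑ x ∈ A \ R, wt x + ∑ x ∈ R, wt x = ∑ x ∈ A, wt x := Finset.sum_sdiff hRA
  rw [hNR] at hsplit2
  obtain ⟨N, hN⟩ : ∃ N, ∑ x ∈ A, wt x = N := ⟨_, rfl⟩
  rw [hN] at hsplit2 ⊢
  by_cases hcomp : a + p ≤ (NR - a + ∑ x ∈ A \ R, wt x) + 1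
  · exfalso
    have h1 := complete_of_interval hp.out.pos A a _ hcomp hext2
    have h2 : A.subsetSum = Finset.univ := Finset.eq_univ_iff_forall.mpr h1
    rw [h2, Finset.card_univ, ZMod.card] at hinc
    exact lt_irrefl _ hinc
  · omega

end Pool.Agent.Lib.FDD
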