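import Mathlib
import Pool.Agent.Lib.MP_fddcb9_nt.Final2

set_option autoImplicit false

namespace Pool.Agent.Lib.FDD

open Finset

variable {p : ℕ}

lemma base_norm (n : ℕ) : ((n : ℤ) ^ 2 + 2 * n) ≤
    4 * ((((n + 1) / 2 : ℕ) : ℤ) * n - (((n + 1) / 2 : ℕ) : ℤ) * ((((n + 1) / 2 : ℕ) : ℤ) - 1)) := by
  obtain ⟨k, hk | hk⟩ := Nat.even_or_odd' n
  · have h3 : (n + 1) / 2 = k := by omega
    rw [h3, hk]; push_cast; nlinarith
  · have h3 : (n + 1) / 2 = k + 1 := by omega
    rw [h3, hk]; push_cast; nlinarith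

lemma final_step [hp : Fact p.Prime] (A : Finset (ZMod p)) (h0 : (0 : ZMod p) ∉ A)
    (n : ℕ) (hn : A.card = n) (hN1 : p ≤ ∑ x ∈ A, wt x + 1)
    (hN2 : 100 * ∑ x ∈ A, wt x ≤ 100 * p + 9 * n)
    (hp4 : 4 * p ≤ n ^ 2 + 4 * n + 12) (hbig : 1000000 ≤ n) : ∀ c : ZMod p, c ∈ A.subsetSum := by
  classical
  have hne : NeZero p := ⟨hp.out.ne_zero⟩
  have hA0 : ∀ x ∈ A, 1 ≤ wt x := fun x hx => wt_pos x (by rintro rfl; exact h0 hx)
  obtain ⟨N, hN⟩ : ∃ N, ∑ x ∈ A, wt x = N := ⟨_, rfl⟩
  rw [hN] at hN1 hN2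
  have hNz : (∑ x ∈ A, (wt x : ℤ)) = (N : ℤ) := by rw [← hN]; push_cast; rfl
  obtain ⟨t0, ht0⟩ : ∃ t0, n / 4 = t0 := ⟨_, rfl⟩
  obtain ⟨t1, ht1⟩ : ∃ t1, n / 8 = t1 := ⟨_, rfl⟩
  obtain ⟨h, hh⟩ : ∃ h, (n + 1) / 2 = h := ⟨_, rfl⟩
  have hbase := base_norm n
  rw [hh] at hbase
  obtain ⟨c0, hc0⟩ : ∃ c0, (A.filter (fun x => wt x ≤ t0)).card = c0 := ⟨_, rfl⟩
  obtain ⟨c1, hc1⟩ : ∃ c1, (A.filter (fun x => wt x ≤ t1)).card = c1 := ⟨_, rfl⟩
  set V0 := (Finset.Icc 1 t0).filter (fun v => ∃ x ∈ A, wt x = v) with hV0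
  have hmiss0 := missing_le A hA0 t0 t0 le_rfl V0 hV0
  rw [hc0] at hmiss0
  have hmiss1 := missing_le A hA0 t1 t1 le_rfl _ rfl
  rw [hc1] at hmiss1
  have hW0 := weight_lower wt A (fun v _ => wt_fib A v) hA0 h t0 (by omega)
  rw [hn, hc0, hNz] at hW0
  have hn0 : (1000000 : ℤ) ≤ n := by exact_mod_cast hbig
  have hNub : (100 : ℤ) * N ≤ 25 * n ^ 2 + 109 * n + 300 := by
    have e1 : (100 : ℤ) * N ≤ 100 * p + 9 * n := by exact_mod_cast hN2
    have e2 : (4 : ℤ) * p ≤ n ^ 2 + 4 * n + 12 := by exact_mod_cast hp4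
    linarith
  have hht : (n : ℤ) ≤ 4 * (h - t0) := by omega
  have hq : 2 * t0 ≤ c0 + 2 := by
    by_contra hcon
    push Not at hcon
    have e1 : (3 : ℤ) ≤ 2 * t0 - c0 := by omega
    have e2 : (3 : ℤ) * (h - t0) ≤ (2 * t0 - c0) * (h - t0) :=
      mul_le_mul_of_nonneg_right e1 (by linarith)
    nlinarith
  -- weights are at most 2n
  have hwmax : ∀ x ∈ A, wt x ≤ 2 * n := by
    intro x hx
    have e1 := weight_lower_sq wt (A.erase x) (fun v _ => wt_fib _ v)
      (fun y hy => hA0 y (Finset.mem_of_mem_erase hy))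
    have e2 := Finset.add_sum_erase A wt hx
    rw [hN] at e2
    rw [Finset.card_erase_of_mem hx, hn] at e1
    obtain ⟨k, hk⟩ : ∃ k, n = k + 1 := ⟨n - 1, by omega⟩
    rw [hk, Nat.add_sub_cancel] at e1
    obtain ⟨u, hu⟩ : ∃ u, ∑ y ∈ A.erase x, wt y = u := ⟨_, rfl⟩
    rw [hu] at e1 e2
    have e3 : (100 : ℤ) * N ≤ 25 * (k + 1) ^ 2 + 109 * (k + 1) + 300 := by
      rw [hk] at hNub; push_cast at hNub; exact hNub
    have e4 : (k : ℤ) ^ 2 + 2 * k ≤ 4 * u := by exact_mod_cast e1
    have e5 : (wt x : ℤ) + u = N := by exact_mod_cast e2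
    have e6 : (wt x : ℤ) ≤ 2 * (k + 1) := by
      have : (1000000 : ℤ) ≤ k + 1 := by rw [hk] at hn0; push_cast at hn0; exact hn0
      nlinarith
    rw [hk]; exact_mod_cast e6
  -- the middle block
  set Z := A.filter (fun x => t1 < wt x ∧ wt x ≤ t0) with hZ
  have hZcard : 2 * t0 ≤ Z.card + 2 * t1 + 2 := by
    have e1 : A.filter (fun x => wt x ≤ t0) ⊆ A.filter (fun x => wt x ≤ t1) ∪ Z := by
      intro x hx
      rw [Finset.mem_filter] at hx
      rw [Finset.mem_union, Finset.mem_filter, hZ, Finset.mem_filter]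
      rcases Nat.lt_or_ge t1 (wt x) with h1 | h1
      · right; exact ⟨hx.1, h1, hx.2⟩
      · left; exact ⟨hx.1, h1⟩
    have e2 := (Finset.card_le_card e1).trans (Finset.card_union_le _ _)
    rw [hc0, hc1] at e2
    omega
  have hZsum : 2 * n ≤ ∑ x ∈ Z, wt x := by
    have e1 : Z.card * (t1 + 1) ≤ ∑ x ∈ Z, wt x := by
      rw [← smul_eq_mul, ← Finset.sum_const]
      refine Finset.sum_le_sum (fun x hx => ?_)
      rw [hZ, Finset.mem_filter] at hx
      omega
    refine le_trans ?_ e1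
    have e2 : n ≤ 8 * (t1 + 1) := by omega
    have e3 : 16 ≤ Z.card := by omega
    nlinarith
  -- two consecutive values: one is present
  have hcons : ∀ v, 3 ≤ v → v ≤ t0 + 1 → ∃ x ∈ A, v ≤ wt x + 2 ∧ wt x < v := by
    intro v hv1 hv2
    by_contra hcon
    push Not at hcon
    have e1 : ({v - 1, v - 2} : Finset ℕ) ⊆ Finset.Icc 1 t0 \ V0 := by
      intro z hz
      rw [Finset.mem_insert, Finset.mem_singleton] at hz
      rw [Finset.mem_sdiff, Finset.mem_Icc]
      refine ⟨by omega, ?_⟩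
      intro hzV
      rw [hV0, Finset.mem_filter] at hzV
      obtain ⟨_, x, hx, hxz⟩ := hzV
      have := hcon x hx (by omega)
      omega
    have e2 := Finset.card_le_card e1
    rw [Finset.card_pair (by omega)] at e2
    omega
  by_cases hcase : ∀ v, 1 ≤ v → v ≤ 30 → ∃ x ∈ A, wt x = v
  · -- Case A: everything small is present
    have hext := extend wt (∅ : Finset (ZMod p)) 0 0 le_rfl
      (fun y _ hy => ⟨∅, Finset.empty_subset _, by simpa using (Nat.le_zero.mp hy).symm⟩)
      A.card A rfl (Finset.disjoint_empty_left _) (by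
        intro x hx
        obtain ⟨v, hv⟩ : ∃ v, wt x = v := ⟨_, rfl⟩
        rw [hv]
        have hv1 := hA0 x hx
        rw [hv] at hv1
        rcases Nat.lt_or_ge v 2 with h2 | h2
        · omega
        · rcases Nat.lt_or_ge 31 v with h3 | h3
          · rcases Nat.lt_or_ge (t0 + 1) v with h4 | h4
            · have e1 : ∑ y ∈ Z, wt y ≤ ∑ y ∈ A.filter (fun y => wt y < v), wt y := by
                refine Finset.sum_le_sum_of_subset ?_
                intro y hy
                rw [hZ, Finset.mem_filter] at hy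
                rw [Finset.mem_filter]
                exact ⟨hy.1, by omega⟩
              have e2 := hwmax x hx
              omega
            · obtain ⟨y1, hy1, hy1a, hy1b⟩ := hcons v (by omega) h4
              obtain ⟨y2, hy2, hy2a⟩ := hcase 2 (by norm_num) (by norm_num)
              have hne12 : y1 ≠ y2 := by rintro rfl; omega
              have e1 : ∑ y ∈ ({y1, y2} : Finset (ZMod p)), wt y
                  ≤ ∑ y ∈ A.filter (fun y => wt y < v), wt y := by
                refine Finset.sum_le_sum_of_subset ?_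
                intro y hy
                rw [Finset.mem_insert, Finset.mem_singleton] at hy
                rw [Finset.mem_filter]
                rcases hy with rfl | rfl
                · exact ⟨hy1, hy1b⟩
                · exact ⟨hy2, by omega⟩
              rw [Finset.sum_pair hne12] at e1
              omega
          · obtain ⟨y, hy, hyv⟩ := hcase (v - 1) (by omega) (by omega)
            have e1 : wt y ≤ ∑ y ∈ A.filter (fun y => wt y < v), wt y := by
              refine Finset.single_le_sum (f := wt) (fun _ _ => Nat.zero_le _) ?_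
              rw [Finset.mem_filter]; exact ⟨hy, by omega⟩
            omega)
    rw [Finset.empty_union, hN] at hext
    exact complete_of_interval hp.out.pos A 0 (0 + N) (by omega) hext
  · -- Case B: some small value is missing
    push Not at hcase
    obtain ⟨v0, hv01, hv02, hv0⟩ := hcase
    set V := (Finset.Icc 1 30).filter (fun v => ∃ x ∈ A, wt x = v) with hV
    have hVsub : Finset.Icc 1 30 \ V ⊆ Finset.Icc 1 t0 \ V0 := by
      intro z hz
      rw [Finset.mem_sdiff, Finset.mem_Icc] at hz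
      rw [Finset.mem_sdiff, Finset.mem_Icc]
      refine ⟨by omega, ?_⟩
      intro hzV
      apply hz.2
      rw [hV0, Finset.mem_filter] at hzV
      rw [hV, Finset.mem_filter, Finset.mem_Icc]
      exact ⟨by omega, hzV.2⟩
    have hVcard : (Finset.Icc 1 30 \ V).card ≤ 1 := by
      have := Finset.card_le_card hVsub
      omega
    have hVcard' : 1 ≤ (Finset.Icc 1 30 \ V).card := by
      refine Finset.card_pos.mpr ⟨v0, ?_⟩
      rw [Finset.mem_sdiff, Finset.mem_Icc]
      refine ⟨⟨hv01, hv02⟩, ?_⟩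
      intro h1
      rw [hV, Finset.mem_filter] at h1
      obtain ⟨_, x, hx, hxv⟩ := h1
      exact hv0 x hx hxv
    have hmiss30 := missing_le A hA0 30 30 le_rfl V hV
    have hW30 := weight_lower wt A (fun v _ => wt_fib A v) hA0 h 30 (by omega)
    obtain ⟨c30, hc30⟩ : ∃ c, (A.filter (fun x => wt x ≤ 30)).card = c := ⟨_, rfl⟩
    rw [hc30] at hmiss30
    rw [hn, hc30, hNz] at hW30
    have hNlow : (n : ℤ) ^ 2 + 6 * n - 240 ≤ 4 * N := by
      have e1 : (2 : ℤ) ≤ 2 * 30 - c30 := by omega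
      have e2 : (2 : ℤ) * (h - 30) ≤ (2 * 30 - c30) * (h - 30) :=
        mul_le_mul_of_nonneg_right e1 (by omega)
      have e3 : (n : ℤ) ≤ 2 * h := by omega
      push_cast at hW30
      linarith
    obtain ⟨g, hg⟩ := exists_rep_fun A
    set Q := V.image g with hQ
    have hQA : Q ⊆ A := by
      intro x hx
      obtain ⟨v, hv, rfl⟩ := Finset.mem_image.mp hx
      exact (hg v (Finset.mem_filter.mp hv).2).1
    have hQw : ∀ x ∈ Q, wt x ≤ 30 := by
      intro x hx
      obtain ⟨v, hv, rfl⟩ := Finset.mem_image.mp hx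
      have hv' := Finset.mem_filter.mp hv
      rw [(hg v hv'.2).2]
      exact (Finset.mem_Icc.mp hv'.1).2
    have hsumQ := sum_reps A 30 V hV g hg
    rw [← hQ] at hsumQ
    have hext := extend wt Q 5 57 (by norm_num)
      (fun y hy1 hy2 => twosum_reps A 30 1 V hV hVcard g hg y (by omega) (by omega))
      (A \ Q).card (A \ Q) rfl Finset.disjoint_sdiff (by
        intro x hx
        have hxA := (Finset.mem_sdiff.mp hx).1
        obtain ⟨v, hv⟩ : ∃ v, wt x = v := ⟨_, rfl⟩
        rw [hv]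
        rcases Nat.lt_or_ge 53 v with h3 | h3
        · rcases Nat.lt_or_ge (t0 + 1) v with h4 | h4
          · have e1 : ∑ y ∈ Z, wt y ≤ ∑ y ∈ (A \ Q).filter (fun y => wt y < v), wt y := by
              refine Finset.sum_le_sum_of_subset ?_
              intro y hy
              rw [hZ, Finset.mem_filter] at hy
              rw [Finset.mem_filter, Finset.mem_sdiff]
              refine ⟨⟨hy.1, ?_⟩, by omega⟩
              intro hyQ
              have := hQw y hyQ
              omega
            have e2 := hwmax x hxA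
            omega
          · obtain ⟨y1, hy1, hy1a, hy1b⟩ := hcons v (by omega) h4
            have e1 : wt y1 ≤ ∑ y ∈ (A \ Q).filter (fun y => wt y < v), wt y := by
              refine Finset.single_le_sum (f := wt) (fun _ _ => Nat.zero_le _) ?_
              rw [Finset.mem_filter, Finset.mem_sdiff]
              refine ⟨⟨hy1, ?_⟩, hy1b⟩
              intro hyQ
              have := hQw y1 hyQ
              omega
            omega
        · omega)
    rw [Finset.union_sdiff_of_subset hQA] at hext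
    have hsplit : ∑ x ∈ A \ Q, wt x + ∑ x ∈ Q, wt x = ∑ x ∈ A, wt x := Finset.sum_sdiff hQA
    rw [hN] at hsplit
    refine complete_of_interval hp.out.pos A 5 (57 + ∑ x ∈ A \ Q, wt x) ?_ hext
    have e2 : (4 : ℤ) * p ≤ n ^ 2 + 4 * n + 12 := by exact_mod_cast hp4
    have e3 : (p : ℤ) + 412 ≤ N := by linarith
    have e4 : p + 412 ≤ N := by exact_mod_cast e3
    omega

/-- main theorem for sets of nonzero residues -/
theorem main_nonzero_aux [hp : Fact p.Prime] (A R : Finset (ZMod p)) (hRA : R ⊆ A)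
    (h0 : (0 : ZMod p) ∉ A)
    (n : ℕ) (hn : A.card = n) (L : ℕ) (h74 : 74 * n ≤ 100 * R.card)
    (h25 : 25 * L ≤ 13 * R.card) (hRL : ∀ x ∈ R, wt x ≤ L)
    (hp4 : 4 * p ≤ n ^ 2 + 4 * n + 12) (hbig : 1000000 ≤ n) (hinc : A.subsetSum.card < p) :
    ∑ x ∈ A, wt x + 2 ≤ p := by
  classical
  have hne : NeZero p := ⟨hp.out.ne_zero⟩
  by_contra hcon
  have h1 := norm_upper A R hRA h0 n hn L h74 h25 hRL hp4 hbig hinc
  have h2 := final_step A h0 n hn (by omega) h1 hp4 hbig
  have h3 : A.subsetSum = Finset.univ := Finset.eq_univ_iff_forall.mpr h2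
  rw [h3, Finset.card_univ, ZMod.card] at hinc
  exact lt_irrefl _ hinc

end Pool.Agent.Lib.FDD
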