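import Mathlib

set_option autoImplicit false

namespace Pool.Agent.Lib.FDD

open Finset
open scoped Pointwise

variable {p : ℕ}

/-- `lam S x` is the number of `a ∈ S` with `a + x ∉ S`. -/
def lam (S : Finset (ZMod p)) (x : ZMod p) : ℕ := (S.filter (fun a => a + x ∉ S)).card

/-- `rep S x` is the number of `a ∈ S` with `a + x ∈ S`. -/
def rep (S : Finset (ZMod p)) (x : ZMod p) : ℕ := (S.filter (fun a => a + x ∈ S)).card

lemma lam_add_rep (S : Finset (ZMod p)) (x : ZMod p) : lam S x + rep S x = S.card := by
  unfold lam rep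
  rw [add_comm]
  exact Finset.card_filter_add_card_filter_not (s := S) (fun a => a + x ∈ S)

lemma lam_zero (S : Finset (ZMod p)) : lam S 0 = 0 := by
  unfold lam
  rw [Finset.card_eq_zero, Finset.filter_eq_empty_iff]
  intro a ha h
  exact h (by simpa using ha)

lemma lam_le_card (S : Finset (ZMod p)) (x : ZMod p) : lam S x ≤ S.card :=
  Finset.card_filter_le _ _

lemma rep_neg (S : Finset (ZMod p)) (x : ZMod p) : rep S (-x) = rep S x := by
  unfold rep
  refine Finset.card_bij' (fun a _ => a - x) (fun a _ => a + x) ?_ ?_ ?_ ?_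
  · intro a ha
    rw [Finset.mem_filter] at ha ⊢
    refine ⟨by simpa [sub_eq_add_neg] using ha.2, by simpa using ha.1⟩
  · intro a ha
    rw [Finset.mem_filter] at ha ⊢
    refine ⟨ha.2, by simpa using ha.1⟩
  · intro a _; simp
  · intro a _; simp

lemma lam_neg (S : Finset (ZMod p)) (x : ZMod p) : lam S (-x) = lam S x := by
  have h1 := lam_add_rep S x
  have h2 := lam_add_rep S (-x)
  rw [rep_neg] at h2
  omega

lemma lam_add_le (S : Finset (ZMod p)) (x y : ZMod p) : lam S (x + y) ≤ lam S x + lam S y := by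
  classical
  have hsub : S.filter (fun a => a + (x + y) ∉ S) ⊆
      S.filter (fun a => a + x ∉ S) ∪ S.filter (fun a => a + x ∈ S ∧ (a + x) + y ∉ S) := by
    intro a ha
    rw [Finset.mem_filter] at ha
    rw [Finset.mem_union, Finset.mem_filter, Finset.mem_filter]
    by_cases h : a + x ∈ S
    · right; exact ⟨ha.1, h, by rw [add_assoc]; exact ha.2⟩
    · left; exact ⟨ha.1, h⟩
  have h2 : (S.filter (fun a => a + x ∈ S ∧ (a + x) + y ∉ S)).card ≤ lam S y := by
    unfold lam
    refine Finset.card_le_card_of_injOn (fun a => a + x) ?_ ?_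
    · intro a ha
      have ha' := Finset.mem_filter.mp (Finset.mem_coe.mp ha)
      exact Finset.mem_coe.mpr (Finset.mem_filter.mpr ⟨ha'.2.1, ha'.2.2⟩)
    · intro a _ b _ hab
      exact add_right_cancel hab
  calc lam S (x + y) ≤ _ := Finset.card_le_card hsub
    _ ≤ _ := Finset.card_union_le _ _
    _ ≤ lam S x + lam S y := Nat.add_le_add_left h2 _

lemma lam_nsmul_le (S : Finset (ZMod p)) (x : ZMod p) (k : ℕ) : lam S (k • x) ≤ k * lam S x := by
  induction k with
  | zero => simp [lam_zero]
  | succ k ih =>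
    rw [succ_nsmul, Nat.succ_mul]
    exact (lam_add_le S _ _).trans (Nat.add_le_add_right ih _)

lemma sum_rep [NeZero p] (S : Finset (ZMod p)) : ∑ x : ZMod p, rep S x = S.card * S.card := by
  classical
  unfold rep
  simp_rw [Finset.card_filter]
  rw [Finset.sum_comm]
  have : ∀ a ∈ S, ∑ x : ZMod p, (if a + x ∈ S then 1 else 0) = S.card := by
    intro a _
    rw [← Finset.card_filter]
    refine Finset.card_bij' (fun x _ => a + x) (fun b _ => b - a) ?_ ?_ ?_ ?_
    · intro x hx; exact (Finset.mem_filter.mp hx).2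
    · intro b hb; rw [Finset.mem_filter]; exact ⟨Finset.mem_univ _, by simpa using hb⟩
    · intro x _; simp
    · intro b _; simp
  rw [Finset.sum_congr rfl this]
  simp

lemma lam_compl [NeZero p] (S : Finset (ZMod p)) (x : ZMod p) : lam Sᶜ x = lam S x := by
  classical
  rw [← lam_neg S x]
  unfold lam
  refine Finset.card_bij' (fun a _ => a + x) (fun a _ => a - x) ?_ ?_ ?_ ?_
  · intro a ha
    rw [Finset.mem_filter, Finset.mem_compl, Finset.mem_compl, not_not] at ha
    rw [Finset.mem_filter]
    exact ⟨ha.2, by simpa using ha.1⟩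
  · intro a ha
    rw [Finset.mem_filter] at ha
    rw [Finset.mem_filter, Finset.mem_compl, Finset.mem_compl, not_not]
    exact ⟨by simpa [sub_eq_add_neg] using ha.2, by simpa using ha.1⟩
  · intro a _; simp
  · intro a _; simp

/-- sets of small `lam` -/
def Bset [NeZero p] (S : Finset (ZMod p)) (t : ℕ) : Finset (ZMod p) :=
  Finset.univ.filter (fun x => lam S x ≤ t)

lemma mem_Bset [NeZero p] {S : Finset (ZMod p)} {t : ℕ} {x : ZMod p} :
    x ∈ Bset S t ↔ lam S x ≤ t := by
  simp [Bset]

lemma card_Bset_ge [hp : Fact p.Prime] (S D : Finset (ZMod p)) (m e : ℕ)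
    (hD : ∀ x ∈ D, lam S x ≤ m) (he : e + 1 ≤ D.card) (j : ℕ) :
    min p (e * j + 1) ≤ (Bset S (j * m)).card := by
  have : NeZero p := ⟨hp.out.ne_zero⟩
  induction j with
  | zero =>
    have h0 : (0 : ZMod p) ∈ Bset S (0 * m) := by rw [mem_Bset, lam_zero]; exact Nat.zero_le _
    have : 1 ≤ (Bset S (0 * m)).card := Finset.card_pos.mpr ⟨0, h0⟩
    exact (min_le_right _ _).trans (by simpa using this)
  | succ j ih =>
    have hB : (Bset S (j * m)).Nonempty := by
      refine ⟨0, ?_⟩
      rw [mem_Bset, lam_zero]; exact Nat.zero_le _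
    have hDn : D.Nonempty := Finset.card_pos.mp (by omega)
    have hcd := ZMod.cauchy_davenport hp.out hB hDn
    have hsub : Bset S (j * m) + D ⊆ Bset S ((j + 1) * m) := by
      intro z hz
      obtain ⟨x, hx, y, hy, rfl⟩ := Finset.mem_add.mp hz
      rw [mem_Bset] at hx ⊢
      have h1 := lam_add_le S x y
      have h2 := hD y hy
      rw [Nat.succ_mul]
      omega
    have h3 := Finset.card_le_card hsub
    have h4 : e * (j + 1) = e * j + e := by ring
    rw [h4]
    omega

/-- key count: for `J * m ≤ |S|`, the sets `Bset S (j m)`, `j < J`, have total size at most `J |S|`. -/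
lemma sum_card_Bset_le [NeZero p] (S : Finset (ZMod p)) (m J : ℕ) (hJ : J * m ≤ S.card)
    (hS : 0 < S.card) :
    ∑ j ∈ Finset.range J, (Bset S (j * m)).card ≤ J * S.card := by
  classical
  have key : ∀ x : ZMod p, S.card * ((Finset.range J).filter (fun j => lam S x ≤ j * m)).card
      ≤ J * rep S x := by
    intro x
    by_cases hne : ((Finset.range J).filter (fun j => lam S x ≤ j * m)).Nonempty
    · obtain ⟨j0, hj0, hmin⟩ := Finset.exists_min_image _ (fun j => j) hne
      rw [Finset.mem_filter, Finset.mem_range] at hj0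
      have hcard : ((Finset.range J).filter (fun j => lam S x ≤ j * m)).card ≤ J - j0 := by
        have hsub : (Finset.range J).filter (fun j => lam S x ≤ j * m) ⊆ Finset.Ico j0 J := by
          intro j hj
          rw [Finset.mem_Ico]
          exact ⟨hmin j hj, Finset.mem_range.mp (Finset.mem_filter.mp hj).1⟩
        simpa using Finset.card_le_card hsub
      have hr := lam_add_rep S x
      have hrep : S.card - j0 * m ≤ rep S x := by omega
      calc S.card * ((Finset.range J).filter (fun j => lam S x ≤ j * m)).card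
          ≤ S.card * (J - j0) := Nat.mul_le_mul_left _ hcard
        _ ≤ J * (S.card - j0 * m) := by
            have hj0J : j0 ≤ J := hj0.1.le
            have h1 : j0 * m ≤ S.card := (Nat.mul_le_mul_right m hj0J).trans hJ
            zify [hj0J, h1]
            have h2 : (J : ℤ) * m ≤ S.card := by exact_mod_cast hJ
            nlinarith [mul_le_mul_of_nonneg_left h2 (Int.natCast_nonneg j0)]
        _ ≤ J * rep S x := Nat.mul_le_mul_left _ hrep
    · rw [Finset.not_nonempty_iff_eq_empty] at hne
      rw [hne]; simp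
  have hsum : S.card * ∑ j ∈ Finset.range J, (Bset S (j * m)).card ≤ J * (S.card * S.card) := by
    have h1 : ∑ j ∈ Finset.range J, (Bset S (j * m)).card
        = ∑ x : ZMod p, ((Finset.range J).filter (fun j => lam S x ≤ j * m)).card := by
      unfold Bset
      simp_rw [Finset.card_filter]
      rw [Finset.sum_comm]
    rw [h1, Finset.mul_sum, ← sum_rep S, Finset.mul_sum]
    exact Finset.sum_le_sum (fun x _ => key x)
  have : S.card * ∑ j ∈ Finset.range J, (Bset S (j * m)).card ≤ S.card * (J * S.card) := by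
    calc _ ≤ _ := hsum
      _ = _ := by ring
  exact Nat.le_of_mul_le_mul_left this hS

/-- For `2|S| ≤ p`, and `J ≥ 1` with `J m ≤ |S|`, one has `e (J-1) + 2 ≤ 2 |S|`. -/
lemma growth_aux [hp : Fact p.Prime] (S D : Finset (ZMod p)) (m e : ℕ)
    (hD : ∀ x ∈ D, lam S x ≤ m) (he : e + 1 ≤ D.card) (hS : 0 < S.card) (hS2 : 2 * S.card ≤ p)
    (J : ℕ) (hJ : (J + 1) * m ≤ S.card) : e * J + 2 ≤ 2 * S.card := by
  have : NeZero p := ⟨hp.out.ne_zero⟩
  by_contra hcon
  push Not at hcon
  have h1 := sum_card_Bset_le S m (J + 1) hJ hS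
  have h2 : ∑ j ∈ Finset.range (J + 1), min p (e * j + 1)
      ≤ ∑ j ∈ Finset.range (J + 1), (Bset S (j * m)).card :=
    Finset.sum_le_sum (fun j _ => card_Bset_ge S D m e hD he j)
  have h3 : ∑ j ∈ Finset.range (J + 1), min p (e * j + 1)
      = ∑ j ∈ Finset.range (J + 1), min p (e * (J - j) + 1) := by
    rw [← Finset.sum_range_reflect]
    refine Finset.sum_congr rfl (fun j hj => ?_)
    congr 3
  have h4 : (J + 1) * (2 * S.card + 1)
      ≤ ∑ j ∈ Finset.range (J + 1), (min p (e * j + 1) + min p (e * (J - j) + 1)) := by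
    have hcst : (J + 1) * (2 * S.card + 1) = ∑ _j ∈ Finset.range (J + 1), (2 * S.card + 1) := by
      rw [Finset.sum_const, Finset.card_range, smul_eq_mul]
    rw [hcst]
    refine Finset.sum_le_sum (fun j hj => ?_)
    have hj' : j ≤ J := by have := Finset.mem_range.mp hj; omega
    have h5 : e * j + e * (J - j) = e * J := by rw [← Nat.mul_add]; congr 1; omega
    rcases le_total p (e * j + 1) with ha | ha
    · rw [min_eq_left ha]
      have : 1 ≤ min p (e * (J - j) + 1) := le_min hp.out.one_le (by omega)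
      omega
    · rcases le_total p (e * (J - j) + 1) with hb | hb
      · rw [min_eq_left hb]
        have : 1 ≤ min p (e * j + 1) := le_min hp.out.one_le (by omega)
        omega
      · rw [min_eq_right ha, min_eq_right hb]
        omega
  rw [Finset.sum_add_distrib, ← h3] at h4
  have h6 : (J + 1) * (2 * S.card + 1) ≤ 2 * ((J + 1) * S.card) := by omega
  nlinarith

/-- Growth lemma: if `lam S ≤ m` on a set with at least `e + 1` elements, `e ≥ 1`, and
`1 ≤ |S| ≤ p/2`, then `e |S| < 2 m (|S| + e)`. -/
lemma growth [hp : Fact p.Prime] (S D : Finset (ZMod p)) (m e : ℕ)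
    (hD : ∀ x ∈ D, lam S x ≤ m) (he : e + 1 ≤ D.card) (he1 : 1 ≤ e)
    (hS : 0 < S.card) (hS2 : 2 * S.card ≤ p) : e * S.card < 2 * m * (S.card + e) := by
  rcases Nat.eq_zero_or_pos m with hm | hm
  · exfalso
    have := growth_aux S D m e hD he hS hS2 (2 * S.card) (by rw [hm]; simp)
    nlinarith
  · rcases Nat.lt_or_ge S.card m with hlt | hge
    · nlinarith
    · obtain ⟨J, hJ⟩ : ∃ J, S.card / m = J + 1 := by
        have : 1 ≤ S.card / m := (Nat.one_le_div_iff hm).mpr hge
        exact ⟨S.card / m - 1, by omega⟩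
      have h1 : (J + 1) * m ≤ S.card := by rw [← hJ]; exact Nat.div_mul_le_self _ _
      have h2 : S.card < (J + 2) * m := by
        have := Nat.lt_div_mul_add hm (a := S.card)
        rw [hJ] at this
        calc S.card < (J + 1) * m + m := this
          _ = (J + 2) * m := by ring
      have h3 := growth_aux S D m e hD he hS hS2 J h1
      have h4 : m * (e * J + 2) ≤ m * (2 * S.card) := Nat.mul_le_mul_left _ h3
      have h5 : e * S.card < e * ((J + 2) * m) := Nat.mul_lt_mul_of_pos_left h2 (by omega)
      nlinarith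

/-- Growth lemma, two-sided form. -/
lemma growth' [hp : Fact p.Prime] (S D : Finset (ZMod p)) (m e s : ℕ)
    (hD : ∀ x ∈ D, lam S x ≤ m) (he : e + 1 ≤ D.card) (he1 : 1 ≤ e)
    (hs0 : 0 < s) (hs1 : s ≤ S.card) (hs2 : s ≤ p - S.card) :
    e * s < 2 * m * (s + e) := by
  have : NeZero p := ⟨hp.out.ne_zero⟩
  have hcard : S.card + Sᶜ.card = p := by
    rw [Finset.card_add_card_compl]; exact ZMod.card p
  -- it suffices to prove the claim with `s` replaced by the smaller of the two sizes
  have mono : ∀ t : ℕ, s ≤ t → e * t < 2 * m * (t + e) → e * s < 2 * m * (s + e) := by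
    intro t hst ht
    by_contra hcon
    push Not at hcon
    -- 2m(s+e) ≤ e s, so (e - 2m) s ≥ 2 m e, monotone in s
    have h1 : 2 * m ≤ e := by
      by_contra h
      push Not at h
      nlinarith
    nlinarith [Nat.mul_le_mul_right (t - s) h1, Nat.sub_add_cancel hst]
  rcases le_total (2 * S.card) p with h | h
  · exact mono S.card hs1 (growth S D m e hD he he1 (by omega) h)
  · have h2 := growth Sᶜ D m e (fun x hx => by rw [lam_compl]; exact hD x hx) he he1
      (by omega) (by omega)
    exact mono Sᶜ.card (by omega) h2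

end Pool.Agent.Lib.FDD
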