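import Mathlib
import Pool.Agent.Lib.MP_fddcb9_nt.Growth

set_option autoImplicit false

namespace Pool.Agent.Lib.FDD

open Finset
open scoped Pointwise

variable {p : ℕ}

/-- the standard additive character -/
noncomputable def ch [NeZero p] (x : ZMod p) : ℂ := ZMod.stdAddChar x

lemma ch_zero [NeZero p] : ch (0 : ZMod p) = 1 := by
  unfold ch; exact AddChar.map_zero_eq_one _

lemma ch_add [NeZero p] (x y : ZMod p) : ch (x + y) = ch x * ch y := by
  unfold ch; exact AddChar.map_add_eq_mul _ x y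

lemma ch_norm [NeZero p] (x : ZMod p) : ‖ch x‖ = 1 := by
  unfold ch; rw [ZMod.stdAddChar_apply]; exact Circle.norm_coe _

lemma ch_conj [NeZero p] (x : ZMod p) : (starRingEnd ℂ) (ch x) = ch (-x) := by
  have h1 : ch x * ch (-x) = 1 := by rw [← ch_add]; simp [ch_zero]
  have h2 : ch x * (starRingEnd ℂ) (ch x) = 1 := by
    rw [Complex.mul_conj, Complex.normSq_eq_norm_sq, ch_norm]; simp
  have h3 : ch x ≠ 0 := by
    intro h; rw [h, zero_mul] at h1; exact zero_ne_one h1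
  exact mul_left_cancel₀ h3 (h2.trans h1.symm)

lemma ch_re [NeZero p] (x : ZMod p) :
    (ch x).re = Real.cos (2 * Real.pi * (x.valMinAbs : ℝ) / p) := by
  have h1 : x = ((x.valMinAbs : ℤ) : ZMod p) := (ZMod.coe_valMinAbs x).symm
  unfold ch
  conv_lhs => rw [h1]
  rw [ZMod.stdAddChar_coe]
  have h2 : (2 * (Real.pi : ℂ) * Complex.I * ((x.valMinAbs : ℤ) : ℂ) / (p : ℂ))
      = ((2 * Real.pi * (x.valMinAbs : ℝ) / p : ℝ) : ℂ) * Complex.I := by
    push_cast; ring
  rw [h2, Complex.exp_ofReal_mul_I_re]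

lemma sum_ch [NeZero p] (b : ZMod p) : ∑ x : ZMod p, ch (x * b) = if b = 0 then (p : ℂ) else 0 := by
  unfold ch
  have := AddChar.sum_mulShift b (ZMod.isPrimitive_stdAddChar p)
  rw [this]
  split_ifs
  · rw [ZMod.card]
  · simp

/-- squared Fourier coefficient -/
noncomputable def G [NeZero p] (S : Finset (ZMod p)) (ξ : ZMod p) : ℝ :=
  Complex.normSq (∑ a ∈ S, ch (ξ * a))

lemma G_nonneg [NeZero p] (S : Finset (ZMod p)) (ξ : ZMod p) : 0 ≤ G S ξ := Complex.normSq_nonneg _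

lemma G_eq [NeZero p] (S : Finset (ZMod p)) (ξ : ZMod p) :
    (G S ξ : ℂ) = ∑ a ∈ S, ∑ b ∈ S, ch (ξ * (a - b)) := by
  unfold G
  rw [← Complex.mul_conj, map_sum, Finset.sum_mul_sum]
  refine Finset.sum_congr rfl (fun a _ => Finset.sum_congr rfl (fun b _ => ?_))
  rw [ch_conj, ← ch_add]
  congr 1; ring

lemma G_zero [NeZero p] (S : Finset (ZMod p)) : G S 0 = (S.card : ℝ) ^ 2 := by
  unfold G
  simp [ch_zero, pow_two]

lemma sum_G_ch [NeZero p] (S : Finset (ZMod p)) (x : ZMod p) :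
    ∑ ξ : ZMod p, (G S ξ : ℂ) * ch (ξ * x) = (p : ℂ) * (rep S x : ℂ) := by
  classical
  have h1 : ∀ ξ : ZMod p, (G S ξ : ℂ) * ch (ξ * x)
      = ∑ a ∈ S, ∑ b ∈ S, ch (ξ * (a - b + x)) := by
    intro ξ
    rw [G_eq, Finset.sum_mul]
    refine Finset.sum_congr rfl (fun a _ => ?_)
    rw [Finset.sum_mul]
    refine Finset.sum_congr rfl (fun b _ => ?_)
    rw [← ch_add]
    congr 1; ring
  simp_rw [h1]
  rw [Finset.sum_comm]
  have h2 : ∀ a ∈ S, ∑ ξ : ZMod p, ∑ b ∈ S, ch (ξ * (a - b + x))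
      = if a + x ∈ S then (p : ℂ) else 0 := by
    intro a _
    rw [Finset.sum_comm]
    simp_rw [sum_ch]
    have h3 : ∀ b : ZMod p, (a - b + x = 0) ↔ (b = a + x) := by
      intro b
      constructor
      · intro h
        have : a + x - b = 0 := by rw [← h]; ring
        exact (sub_eq_zero.mp this).symm
      · rintro rfl; ring
    simp_rw [h3]
    rw [Finset.sum_ite_eq']
  rw [Finset.sum_congr rfl h2, ← Finset.sum_filter, Finset.sum_const]
  unfold rep
  rw [nsmul_eq_mul, mul_comm]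

lemma sum_G_re [NeZero p] (S : Finset (ZMod p)) (x : ZMod p) :
    ∑ ξ : ZMod p, G S ξ * (ch (ξ * x)).re = (p : ℝ) * (rep S x : ℝ) := by
  have h := congrArg Complex.re (sum_G_ch S x)
  rw [Complex.re_sum] at h
  have h1 : ∀ ξ : ZMod p, ((G S ξ : ℂ) * ch (ξ * x)).re = G S ξ * (ch (ξ * x)).re := by
    intro ξ; exact Complex.re_ofReal_mul _ _
  simp_rw [h1] at h
  rw [h]
  have : ((p : ℂ) * (rep S x : ℂ)) = ((p * rep S x : ℕ) : ℂ) := by push_cast; ring
  rw [this, Complex.natCast_re]; push_cast; ring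

lemma sum_G_one_sub [NeZero p] (S : Finset (ZMod p)) (x : ZMod p) :
    ∑ ξ : ZMod p, G S ξ * (1 - (ch (ξ * x)).re) = (p : ℝ) * (lam S x : ℝ) := by
  have h0 := sum_G_re S 0
  have hx := sum_G_re S x
  have hr0 : rep S 0 = S.card := by
    have := lam_add_rep S 0; rw [lam_zero] at this; omega
  have hl : (lam S x : ℝ) + rep S x = S.card := by exact_mod_cast lam_add_rep S x
  simp only [mul_zero, ch_zero, Complex.one_re, mul_one, hr0] at h0
  simp_rw [mul_sub, mul_one]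
  rw [Finset.sum_sub_distrib, h0, hx, ← hl]
  ring

lemma sum_G [NeZero p] (S : Finset (ZMod p)) : ∑ ξ : ZMod p, G S ξ = (p : ℝ) * S.card := by
  have h0 := sum_G_re S 0
  have hr0 : rep S 0 = S.card := by
    have := lam_add_rep S 0; rw [lam_zero] at this; omega
  simpa only [mul_zero, ch_zero, Complex.one_re, mul_one, hr0] using h0

/-- There is a nonzero dilation for which the elements of `R` are close to zero on average. -/
lemma exists_dilation [hp : Fact p.Prime] (S R : Finset (ZMod p)) (m : ℕ)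
    (hR : ∀ x ∈ R, lam S x ≤ m) (hS0 : 0 < S.card) (hS1 : S.card < p) :
    ∃ ξ : ZMod p, ξ ≠ 0 ∧
      (∑ x ∈ R, (1 - Real.cos (2 * Real.pi * ((ξ * x).valMinAbs : ℝ) / p))) *
        ((S.card : ℝ) * ((p : ℝ) - S.card)) ≤ p * (R.card * m) := by
  classical
  have hne : NeZero p := ⟨hp.out.ne_zero⟩
  by_contra hcon
  push Not at hcon
  set W : ZMod p → ℝ := fun ξ => ∑ x ∈ R, (1 - (ch (ξ * x)).re) with hW
  have hWeq : ∀ ξ, W ξ = ∑ x ∈ R, (1 - Real.cos (2 * Real.pi * ((ξ * x).valMinAbs : ℝ) / p)) := by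
    intro ξ; rw [hW]; simp only [ch_re]
  have htot : ∑ ξ : ZMod p, G S ξ * W ξ ≤ p * (R.card * m) := by
    have h1 : ∑ ξ : ZMod p, G S ξ * W ξ = ∑ x ∈ R, (p : ℝ) * (lam S x : ℝ) := by
      rw [hW]
      simp_rw [Finset.mul_sum]
      rw [Finset.sum_comm]
      exact Finset.sum_congr rfl (fun x _ => sum_G_one_sub S x)
    rw [h1]
    have h2 : ∑ x ∈ R, (p : ℝ) * (lam S x : ℝ) ≤ ∑ x ∈ R, (p : ℝ) * (m : ℝ) := by
      refine Finset.sum_le_sum (fun x hx => ?_)
      exact mul_le_mul_of_nonneg_left (by exact_mod_cast hR x hx) (Nat.cast_nonneg _)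
    rw [Finset.sum_const, nsmul_eq_mul] at h2
    linarith
  have hW0 : W 0 = 0 := by
    rw [hW]; simp [ch_zero]
  have hsplit : ∑ ξ : ZMod p, G S ξ * W ξ = ∑ ξ ∈ Finset.univ.erase (0 : ZMod p), G S ξ * W ξ := by
    rw [← Finset.add_sum_erase Finset.univ (fun ξ => G S ξ * W ξ) (Finset.mem_univ (0 : ZMod p))]
    simp [hW0]
  have hGsplit : ∑ ξ ∈ Finset.univ.erase (0 : ZMod p), G S ξ = (S.card : ℝ) * ((p : ℝ) - S.card) := by
    have h1 := Finset.add_sum_erase Finset.univ (fun ξ => G S ξ) (Finset.mem_univ (0 : ZMod p))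
    rw [sum_G] at h1
    simp only [G_zero] at h1
    linarith
  have hq : 0 < (S.card : ℝ) * ((p : ℝ) - S.card) := by
    have h1 : (0 : ℝ) < S.card := by exact_mod_cast hS0
    have h2 : (S.card : ℝ) < p := by exact_mod_cast hS1
    exact mul_pos h1 (by linarith)
  set Q := (S.card : ℝ) * ((p : ℝ) - S.card) with hQ
  set T : ℝ := p * (R.card * m) with hT
  have hlow : ∀ ξ ∈ Finset.univ.erase (0 : ZMod p), T / Q < W ξ := by
    intro ξ hξ
    have h1 := hcon ξ (Finset.ne_of_mem_erase hξ)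
    rw [← hWeq ξ] at h1
    rw [div_lt_iff₀ hq]
    exact h1
  have hex : ∃ ξ ∈ Finset.univ.erase (0 : ZMod p), 0 < G S ξ := by
    by_contra hno
    push Not at hno
    have : ∑ ξ ∈ Finset.univ.erase (0 : ZMod p), G S ξ ≤ 0 := Finset.sum_nonpos hno
    rw [hGsplit] at this
    linarith
  have hlt : ∑ ξ ∈ Finset.univ.erase (0 : ZMod p), G S ξ * (T / Q)
      < ∑ ξ ∈ Finset.univ.erase (0 : ZMod p), G S ξ * W ξ := by
    obtain ⟨ξ0, hξ0, hpos⟩ := hex
    refine Finset.sum_lt_sum (fun ξ hξ => ?_) ⟨ξ0, hξ0, ?_⟩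
    · exact mul_le_mul_of_nonneg_left (hlow ξ hξ).le (G_nonneg S ξ)
    · exact mul_lt_mul_of_pos_left (hlow ξ0 hξ0) hpos
  rw [← Finset.sum_mul, hGsplit, ← hsplit, mul_div_cancel₀ T hq.ne'] at hlt
  linarith

/-- number of far elements -/
lemma card_far [hp : Fact p.Prime] (R : Finset (ZMod p)) (ξ : ZMod p) (C : ℝ) (k : ℕ)
    (hk : 0 < k)
    (hW : ∑ x ∈ R, (1 - Real.cos (2 * Real.pi * ((ξ * x).valMinAbs : ℝ) / p)) ≤ C) :
    8 * ((R.filter (fun x => p ≤ k * (ξ * x).valMinAbs.natAbs)).card : ℝ) ≤ C * k ^ 2 := by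
  classical
  have hne : NeZero p := ⟨hp.out.ne_zero⟩
  have hp0 : (0 : ℝ) < p := by exact_mod_cast hp.out.pos
  have hk0 : (0 : ℝ) < k := by exact_mod_cast hk
  set Far := R.filter (fun x => p ≤ k * (ξ * x).valMinAbs.natAbs) with hFar
  have h1 : ∀ x ∈ Far, 8 / (k : ℝ) ^ 2
      ≤ 1 - Real.cos (2 * Real.pi * ((ξ * x).valMinAbs : ℝ) / p) := by
    intro x hx
    have hx2 := (Finset.mem_filter.mp hx).2
    set v : ℤ := (ξ * x).valMinAbs with hv
    have hvabs : |(v : ℝ)| = (v.natAbs : ℝ) := by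
      rw [Nat.cast_natAbs]; push_cast; rfl
    have hupper : (v.natAbs : ℝ) ≤ p / 2 := by
      have h := ZMod.natAbs_valMinAbs_le (ξ * x)
      rw [← hv] at h
      have h2 : ((v.natAbs : ℕ) : ℝ) ≤ ((p / 2 : ℕ) : ℝ) := by exact_mod_cast h
      exact h2.trans Nat.cast_div_le
    have hlower : (p : ℝ) / k ≤ v.natAbs := by
      rw [div_le_iff₀ hk0]
      have : (p : ℝ) ≤ k * v.natAbs := by exact_mod_cast hx2
      linarith
    have habs : |2 * Real.pi * (v : ℝ) / p| ≤ Real.pi := by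
      rw [abs_div, abs_mul, abs_of_pos (by positivity : (0 : ℝ) < 2 * Real.pi), abs_of_pos hp0,
        hvabs, div_le_iff₀ hp0]
      nlinarith [Real.pi_pos]
    have hcos := Real.cos_le_one_sub_mul_cos_sq habs
    have hsq : 2 / Real.pi ^ 2 * (2 * Real.pi * (v : ℝ) / p) ^ 2 = 8 * (v.natAbs / p : ℝ) ^ 2 := by
      have hpi := Real.pi_pos.ne'
      have : (v : ℝ) ^ 2 = (v.natAbs : ℝ) ^ 2 := by rw [← hvabs, sq_abs]
      field_simp
      rw [this]; ring
    rw [hsq] at hcos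
    have h3 : (1 : ℝ) / k ≤ v.natAbs / p := by
      rw [div_le_div_iff₀ hk0 hp0]
      rw [div_le_iff₀ hk0] at hlower
      linarith
    have h4 : ((1 : ℝ) / k) ^ 2 ≤ (v.natAbs / p : ℝ) ^ 2 :=
      pow_le_pow_left₀ (by positivity) h3 2
    have h5 : 8 / (k : ℝ) ^ 2 = 8 * ((1 : ℝ) / k) ^ 2 := by field_simp
    rw [h5]
    linarith
  have h2 : (Far.card : ℝ) * (8 / (k : ℝ) ^ 2) ≤ C := by
    calc (Far.card : ℝ) * (8 / (k : ℝ) ^ 2) = ∑ _x ∈ Far, 8 / (k : ℝ) ^ 2 := by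
          rw [Finset.sum_const, nsmul_eq_mul]
      _ ≤ ∑ x ∈ Far, (1 - Real.cos (2 * Real.pi * ((ξ * x).valMinAbs : ℝ) / p)) :=
          Finset.sum_le_sum h1
      _ ≤ ∑ x ∈ R, (1 - Real.cos (2 * Real.pi * ((ξ * x).valMinAbs : ℝ) / p)) := by
          refine Finset.sum_le_sum_of_subset_of_nonneg (Finset.filter_subset _ _) ?_
          intro x _ _
          have := Real.cos_le_one (2 * Real.pi * ((ξ * x).valMinAbs : ℝ) / p)
          linarith
      _ ≤ C := hW
  rw [← mul_div_assoc, div_le_iff₀ (by positivity)] at h2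
  linarith

end Pool.Agent.Lib.FDD
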