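import Mathlib
import Pool.Agent.Lib.MP_fddcb9_nt.Growth

set_option autoImplicit false

namespace Pool.Agent.Lib.FDD

open Finset
open scoped Pointwise

variable {p : ℕ}

lemma subsetSum_insert' (F : Finset (ZMod p)) (a : ZMod p) (ha : a ∉ F) :
    (insert a F).subsetSum = F.subsetSum ∪ F.subsetSum.image (fun s => s + a) := by
  classical
  ext z
  rw [Finset.mem_union, Finset.mem_image]
  constructor
  · intro hz
    obtain ⟨B, hB, hBz⟩ := Finset.mem_subsetSum_iff.mp hz
    by_cases haB : a ∈ B
    · right
      refine ⟨∑ b ∈ B.erase a, b, ?_, ?_⟩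
      · rw [Finset.mem_subsetSum_iff]
        refine ⟨B.erase a, ?_, rfl⟩
        intro x hx
        rw [Finset.mem_erase] at hx
        exact (Finset.mem_insert.mp (hB hx.2)).resolve_left hx.1
      · rw [Finset.sum_erase_add _ _ haB, hBz]
    · left
      rw [Finset.mem_subsetSum_iff]
      refine ⟨B, ?_, hBz⟩
      intro x hx
      refine (Finset.mem_insert.mp (hB hx)).resolve_left ?_
      rintro rfl
      exact haB hx
  · rintro (hz | ⟨s, hs, rfl⟩)
    · exact Finset.subsetSum_mono (Finset.subset_insert _ _) hz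
    · obtain ⟨B, hB, hBz⟩ := Finset.mem_subsetSum_iff.mp hs
      rw [Finset.mem_subsetSum_iff]
      refine ⟨insert a B, Finset.insert_subset_insert _ hB, ?_⟩
      rw [Finset.sum_insert (fun h => ha (hB h)), hBz, add_comm]

lemma card_subsetSum_insert (F : Finset (ZMod p)) (a : ZMod p) (ha : a ∉ F) :
    ((insert a F).subsetSum).card = (F.subsetSum).card + lam F.subsetSum a := by
  classical
  rw [subsetSum_insert' F a ha]
  have h1 : F.subsetSum ∪ F.subsetSum.image (fun s => s + a)
      = F.subsetSum ∪ (F.subsetSum.filter (fun s => s + a ∉ F.subsetSum)).image (fun s => s + a) := by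
    ext z
    simp only [Finset.mem_union, Finset.mem_image, Finset.mem_filter]
    constructor
    · rintro (h | ⟨s, hs, rfl⟩)
      · exact Or.inl h
      · by_cases h : s + a ∈ F.subsetSum
        · exact Or.inl h
        · exact Or.inr ⟨s, ⟨hs, h⟩, rfl⟩
    · rintro (h | ⟨s, ⟨hs, _⟩, rfl⟩)
      · exact Or.inl h
      · exact Or.inr ⟨s, hs, rfl⟩
  rw [h1, Finset.card_union_of_disjoint, Finset.card_image_of_injective]
  · rfl
  · exact add_left_injective a
  · rw [Finset.disjoint_left]
    intro z hz hz2
    obtain ⟨s, hs, rfl⟩ := Finset.mem_image.mp hz2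
    exact (Finset.mem_filter.mp hs).2 hz

/-- the greedy step -/
lemma greedy_step [hp : Fact p.Prime] (A F : Finset (ZMod p)) (h0 : (0 : ZMod p) ∉ A)
    (hF : F ⊆ A) (hlt : F.card < A.card) :
    ∃ x ∈ A \ F, ((insert x F).subsetSum).card = (F.subsetSum).card + lam F.subsetSum x ∧
      (∀ y ∈ A \ F, lam F.subsetSum y ≤ lam F.subsetSum x) ∧
      ∀ s e : ℕ, 0 < s → s ≤ F.subsetSum.card → s ≤ p - F.subsetSum.card → 1 ≤ e →
        e ≤ A.card - F.card → e * s < 2 * lam F.subsetSum x * (s + e) := by
  classical
  have hR : (A \ F).card = A.card - F.card := Finset.card_sdiff_of_subset hF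
  have hne : (A \ F).Nonempty := Finset.card_pos.mp (by omega)
  obtain ⟨x, hx, hmax⟩ := Finset.exists_max_image (A \ F) (fun y => lam F.subsetSum y) hne
  refine ⟨x, hx, card_subsetSum_insert F x (Finset.mem_sdiff.mp hx).2, hmax, ?_⟩
  intro s e hs0 hs1 hs2 he1 he2
  refine growth' F.subsetSum (insert 0 (A \ F)) (lam F.subsetSum x) e s ?_ ?_ he1 hs0 hs1 hs2
  · intro y hy
    rcases Finset.mem_insert.mp hy with rfl | hy
    · rw [lam_zero]; exact Nat.zero_le _
    · exact hmax y hy
  · rw [Finset.card_insert_of_notMem]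
    · omega
    · intro h; exact h0 (Finset.mem_sdiff.mp h).1

lemma card_subsetSum_pos (F : Finset (ZMod p)) : 0 < F.subsetSum.card :=
  Finset.card_pos.mpr ⟨0, Finset.zero_mem_subsetSum⟩

/-- upper bound: if `A` is incomplete then every `F ⊆ A` misses at least `(|A|-|F|)^2/64` residues -/
lemma claimU [hp : Fact p.Prime] (A : Finset (ZMod p)) (h0 : (0 : ZMod p) ∉ A)
    (hA : A.subsetSum.card < p) (hn : A.card ^ 2 ≤ 4 * p) (j : ℕ) :
    ∀ F : Finset (ZMod p), F ⊆ A → A.card - F.card = j →
      j ^ 2 ≤ 64 * (p - F.subsetSum.card) := by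
  classical
  induction j with
  | zero => intro F _ _; simp
  | succ j ih =>
    intro F hF hj
    have hlt : F.card < A.card := by omega
    have hcardF : F.subsetSum.card ≤ A.subsetSum.card :=
      Finset.card_le_card (Finset.subsetSum_mono hF)
    obtain ⟨x, hx, hcard, hmax, hgrow⟩ := greedy_step A F h0 hF hlt
    have hxF : x ∉ F := (Finset.mem_sdiff.mp hx).2
    have hxA : x ∈ A := (Finset.mem_sdiff.mp hx).1
    have hF' : insert x F ⊆ A := Finset.insert_subset hxA hF
    have hc' : (insert x F).card = F.card + 1 := Finset.card_insert_of_notMem hxF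
    have ih' := ih (insert x F) hF' (by omega)
    have hcardF' : (insert x F).subsetSum.card ≤ A.subsetSum.card :=
      Finset.card_le_card (Finset.subsetSum_mono hF')
    set m := lam F.subsetSum x with hm
    set s := F.subsetSum.card with hs
    rw [hcard] at ih' hcardF'
    by_cases hhalf : 2 * s < p
    · -- then p - s > p / 2
      have h1 : (j + 1) ^ 2 ≤ A.card ^ 2 := Nat.pow_le_pow_left (by omega) 2
      have h2 : 4 * p ≤ 64 * (p - s) := by omega
      omega
    · obtain ⟨u, hu⟩ : ∃ u, p - (s + m) = u + 1 := ⟨p - (s + m) - 1, by omega⟩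
      have hpu : p - s = u + 1 + m := by omega
      rw [hu] at ih'
      rw [hpu]
      have hg := hgrow (u + 1) (j + 1) (by omega) (by omega) (by omega) (by omega) (by omega)
      by_contra hcon
      push Not at hcon
      -- 64 (u+1+m) < (j+1)^2, j^2 ≤ 64 (u+1)
      have h3 : 64 * m ≤ 2 * j := by
        have : (j + 1) ^ 2 = j ^ 2 + 2 * j + 1 := by ring
        omega
      have h3' : 64 * m * (u + 1 + (j + 1)) ≤ 2 * j * (u + 1 + (j + 1)) :=
        Nat.mul_le_mul_right _ h3
      have h4 : 16 * ((j + 1) * (u + 1)) < j * (u + 1 + (j + 1)) := by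
        have e1 : 64 * m * (u + 1 + (j + 1)) = 32 * (2 * m * (u + 1 + (j + 1))) := by ring
        have e2 : 2 * j * (u + 1 + (j + 1)) = 2 * (j * (u + 1 + (j + 1))) := by ring
        omega
      have h5 : 15 * (u + 1) < j := by
        have : (j + 1) * (15 * (u + 1)) < (j + 1) * j := by
          have e1 : j * (u + 1 + (j + 1)) = j * (u + 1) + (j + 1) * j := by ring
          have e2 : (j + 1) * (15 * (u + 1)) = 15 * ((j + 1) * (u + 1)) := by ring
          have e3 : (j + 1) * (u + 1) = j * (u + 1) + (u + 1) := by ring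
          omega
        exact lt_of_mul_lt_mul_left this (Nat.zero_le _)
      have h6 : j ≤ 4 := by
        by_contra h
        push Not at h
        have : 5 * j ≤ j ^ 2 := by rw [pow_two]; exact Nat.mul_le_mul_right _ h
        omega
      interval_cases j <;> omega

/-- lower bound along a greedy chain -/
lemma chainL [hp : Fact p.Prime] (A : Finset (ZMod p)) (h0 : (0 : ZMod p) ∉ A)
    (hA : A.subsetSum.card < p) (i : ℕ) (hi : 2 * i ≤ A.card) :
    ∃ F : Finset (ZMod p), F ⊆ A ∧ F.card = i ∧
      (i ^ 2 ≤ 64 * F.subsetSum.card ∨ p ≤ 2 * F.subsetSum.card) := by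
  classical
  induction i with
  | zero => exact ⟨∅, Finset.empty_subset _, rfl, Or.inl (by simp)⟩
  | succ i ih =>
    obtain ⟨F, hF, hFc, hFs⟩ := ih (by omega)
    have hlt : F.card < A.card := by omega
    obtain ⟨x, hx, hcard, hmax, hgrow⟩ := greedy_step A F h0 hF hlt
    have hxF : x ∉ F := (Finset.mem_sdiff.mp hx).2
    have hxA : x ∈ A := (Finset.mem_sdiff.mp hx).1
    refine ⟨insert x F, Finset.insert_subset hxA hF, by
      rw [Finset.card_insert_of_notMem hxF, hFc], ?_⟩
    rw [hcard]
    have hpos := card_subsetSum_pos F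
    set m := lam F.subsetSum x with hm
    set s := F.subsetSum.card with hs
    rcases hFs with h1 | h1
    · by_cases hhalf : p ≤ 2 * s
      · right; omega
      · left
        by_contra hcon
        push Not at hcon
        have h3 : 64 * m ≤ 2 * i := by
          have : (i + 1) ^ 2 = i ^ 2 + 2 * i + 1 := by ring
          omega
        rcases Nat.eq_zero_or_pos i with hi0 | hi0
        · subst hi0; omega
        · have hg := hgrow s i hpos le_rfl (by omega) hi0 (by omega)
          have h3' : 64 * m * (s + i) ≤ 2 * i * (s + i) := Nat.mul_le_mul_right _ h3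
          have h4 : 16 * (i * s) < i * (s + i) := by
            have e1 : 64 * m * (s + i) = 32 * (2 * m * (s + i)) := by ring
            have e2 : 2 * i * (s + i) = 2 * (i * (s + i)) := by ring
            omega
          have h5 : 15 * s < i := by
            have : i * (15 * s) < i * i := by
              have e1 : i * (s + i) = i * s + i * i := by ring
              have e2 : i * (15 * s) = 15 * (i * s) := by ring
              omega
            exact lt_of_mul_lt_mul_left this (Nat.zero_le _)
          have h6 : i ≤ 4 := by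
            by_contra h
            push Not at h
            have : 5 * i ≤ i ^ 2 := by rw [pow_two]; exact Nat.mul_le_mul_right _ h
            omega
          interval_cases i <;> omega
    · right; omega

/-- segment lemma for a potential -/
lemma segment (A : Finset (ZMod p)) (Φ : Finset (ZMod p) → ℝ) (g : ℝ) (s0 : ℕ) (ia : ℕ) (k : ℕ)
    (hstep : ∀ F : Finset (ZMod p), F ⊆ A → ia ≤ F.card → F.card < ia + k →
      s0 ≤ F.subsetSum.card → ∃ x ∈ A \ F, Φ F + g ≤ Φ (insert x F))
    (Fa : Finset (ZMod p)) (hFa : Fa ⊆ A) (hca : Fa.card = ia) (hsa : s0 ≤ Fa.subsetSum.card) :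
    ∃ F : Finset (ZMod p), F ⊆ A ∧ F.card = ia + k ∧ s0 ≤ F.subsetSum.card ∧
      Φ Fa + k * g ≤ Φ F := by
  classical
  induction k with
  | zero => exact ⟨Fa, hFa, by simpa using hca, hsa, by simp⟩
  | succ k ih =>
    obtain ⟨F, hF, hFc, hFs, hFΦ⟩ := ih (fun F h1 h2 h3 h4 => hstep F h1 h2 (by omega) h4)
    obtain ⟨x, hx, hxΦ⟩ := hstep F hF (by omega) (by omega) hFs
    have hxF : x ∉ F := (Finset.mem_sdiff.mp hx).2
    have hxA : x ∈ A := (Finset.mem_sdiff.mp hx).1
    refine ⟨insert x F, Finset.insert_subset hxA hF, ?_, ?_, ?_⟩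
    · rw [Finset.card_insert_of_notMem hxF, hFc]; omega
    · exact hFs.trans (Finset.card_le_card (Finset.subsetSum_mono (Finset.subset_insert _ _)))
    · push_cast
      linarith

end Pool.Agent.Lib.FDD
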