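import Mathlib
import Pool.Agent.Lib.MP_fddcb9_nt.Stage

set_option autoImplicit false

namespace Pool.Agent.Lib.FDD

open Finset
open scoped Pointwise

variable {p : ℕ}

/-- the potential -/
noncomputable def pot (n : ℕ) (F : Finset (ZMod p)) : ℝ :=
  (F.subsetSum.card : ℝ) + (9999 / 10000) * ((n : ℝ) - F.card) ^ 2 / 4

lemma pot_insert (n : ℕ) (F : Finset (ZMod p)) (x : ZMod p) (hx : x ∉ F) :
    pot n (insert x F) = pot n F + (lam F.subsetSum x : ℝ)
      - (9999 / 10000) * (2 * ((n : ℝ) - F.card) - 1) / 4 := by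
  unfold pot
  rw [card_subsetSum_insert F x hx, Finset.card_insert_of_notMem hx]
  push_cast
  ring

lemma step_normal [hp : Fact p.Prime] (A F : Finset (ZMod p)) (h0 : (0 : ZMod p) ∉ A)
    (hF : F ⊆ A) (hlt : F.card < A.card)
    (h1 : 10000 * A.card ≤ F.subsetSum.card) (h2 : 10000 * A.card ≤ p - F.subsetSum.card) :
    ∃ x ∈ A \ F, pot A.card F + 0 ≤ pot A.card (insert x F) := by
  obtain ⟨x, hx, hcard, hmax, hgrow⟩ := greedy_step A F h0 hF hlt
  refine ⟨x, hx, ?_⟩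
  rw [pot_insert _ _ _ (Finset.mem_sdiff.mp hx).2]
  have hg := hgrow (10000 * A.card) (A.card - F.card) (by omega) h1 h2 (by omega) le_rfl
  obtain ⟨r, hr⟩ : ∃ r, A.card - F.card = r := ⟨_, rfl⟩
  have hAr : A.card = F.card + r := by omega
  rw [hr] at hg
  have hr1 : 1 ≤ r := by omega
  have hcast : (A.card : ℝ) - F.card = r := by rw [hAr]; push_cast; ring
  rw [hcast]
  set m := lam F.subsetSum x
  have hg' : (r : ℝ) * (10000 * A.card) < 2 * m * (10000 * A.card + r) := by exact_mod_cast hg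
  have hrA : (r : ℝ) ≤ A.card := by exact_mod_cast (by omega : r ≤ A.card)
  have hr0 : (1 : ℝ) ≤ r := by exact_mod_cast hr1
  have hm : (9999 / 10000 : ℝ) * r ≤ 2 * m := by
    by_contra hcon
    push Not at hcon
    have h3 : (2 : ℝ) * m * (10000 * A.card + r) ≤ (9999 / 10000 : ℝ) * r * (10000 * A.card + r) :=
      mul_le_mul_of_nonneg_right hcon.le
        (add_nonneg (mul_nonneg (by norm_num) (Nat.cast_nonneg _)) (Nat.cast_nonneg _))
    nlinarith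
  linarith

lemma step_bad (n : ℕ) (A F : Finset (ZMod p))
    (h4 : 4 * F.card ≤ n)
    (hbad : ∃ x ∈ A \ F, 101 * (n - F.card) < 200 * lam F.subsetSum x) :
    ∃ x ∈ A \ F, pot n F + 3 * n / 800 ≤ pot n (insert x F) := by
  obtain ⟨x, hx, hlx⟩ := hbad
  refine ⟨x, hx, ?_⟩
  rw [pot_insert _ _ _ (Finset.mem_sdiff.mp hx).2]
  set m := lam F.subsetSum x
  have hle : F.card ≤ n := by omega
  have h1 : (101 : ℝ) * ((n : ℝ) - F.card) < 200 * m := by
    rw [← Nat.cast_sub hle]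
    exact_mod_cast hlx
  have h2 : (4 : ℝ) * F.card ≤ n := by exact_mod_cast h4
  nlinarith

theorem stage_exists [hp : Fact p.Prime] (A : Finset (ZMod p)) (h0 : (0 : ZMod p) ∉ A)
    (hA : A.subsetSum.card < p) (hn4 : A.card ^ 2 ≤ 4 * p)
    (hp4 : 4 * p ≤ A.card ^ 2 + 4 * A.card + 12) (hbig : 10 ^ 18 ≤ A.card) :
    ∃ F : Finset (ZMod p), F ⊆ A ∧ A.card ≤ 8 * F.card ∧ 4 * F.card ≤ A.card ∧
      A.card ^ 2 ≤ 300000000 * F.subsetSum.card ∧
      A.card ^ 2 ≤ 300000000 * (p - F.subsetSum.card) ∧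
      ∀ x ∈ A \ F, 200 * lam F.subsetSum x ≤ 101 * (A.card - F.card) := by
  classical
  obtain ⟨n, hn⟩ : ∃ n, A.card = n := ⟨_, rfl⟩
  rw [hn] at hn4 hp4 hbig ⊢
  by_contra hcon
  push Not at hcon
  -- starting point
  obtain ⟨F0, hF0, hF0c, hF0s⟩ := chainL A h0 hA (n / 2000 + 1) (by omega)
  have hF0big : n ^ 2 ≤ 256000000 * F0.subsetSum.card := by
    rcases hF0s with h | h
    · have h1 : n ≤ 2000 * (n / 2000 + 1) := by omega
      have h2 : n ^ 2 ≤ (2000 * (n / 2000 + 1)) ^ 2 := Nat.pow_le_pow_left h1 2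
      calc n ^ 2 ≤ (2000 * (n / 2000 + 1)) ^ 2 := h2
        _ = 4000000 * (n / 2000 + 1) ^ 2 := by ring
        _ ≤ 4000000 * (64 * F0.subsetSum.card) := Nat.mul_le_mul_left _ h
        _ = 256000000 * F0.subsetSum.card := by ring
    · omega
  set s0 := F0.subsetSum.card with hs0
  have hnn : 10 ^ 18 * n ≤ n ^ 2 := by rw [pow_two n]; exact Nat.mul_le_mul_right _ hbig
  have hs0n : 10000 * n ≤ s0 := by omega
  -- complement bound
  have hU : ∀ F : Finset (ZMod p), F ⊆ A → F.card + n / 40 + 1 ≤ n →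
      n ^ 2 ≤ 102400 * (p - F.subsetSum.card) := by
    intro F hF hFc
    have h1 := claimU A h0 hA (by rw [hn]; exact hn4) (n - F.card) F hF (by rw [hn])
    have h2 : n ≤ 40 * (n - F.card) := by omega
    have h3 : n ^ 2 ≤ (40 * (n - F.card)) ^ 2 := Nat.pow_le_pow_left h2 2
    calc n ^ 2 ≤ (40 * (n - F.card)) ^ 2 := h3
      _ = 1600 * (n - F.card) ^ 2 := by ring
      _ ≤ 1600 * (64 * (p - F.subsetSum.card)) := Nat.mul_le_mul_left _ h1
      _ = 102400 * (p - F.subsetSum.card) := by ring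
  have hstepN : ∀ F : Finset (ZMod p), F ⊆ A → F.card + n / 40 + 1 ≤ n →
      s0 ≤ F.subsetSum.card → ∃ x ∈ A \ F, pot n F + 0 ≤ pot n (insert x F) := by
    intro F hF hFc hFs
    have h1 := hU F hF hFc
    have h2 := step_normal A F h0 hF (by omega) (by omega) (by omega)
    rw [hn] at h2
    exact h2
  -- segment I
  obtain ⟨F1, hF1, hF1c, hF1s, hF1p⟩ := segment A (pot n) 0 s0 (n / 2000 + 1)
    (n / 8 + 1 - (n / 2000 + 1)) (fun F h1 h2 h3 h4 => hstepN F h1 (by omega) h4) F0 hF0 hF0c le_rfl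
  -- segment II
  obtain ⟨F2, hF2, hF2c, hF2s, hF2p⟩ := segment A (pot n) (3 * n / 800) s0 (n / 8 + 1)
    (n / 4 - (n / 8 + 1)) (fun F h1 h2 h3 h4 => by
      refine step_bad n A F (by omega) ?_
      have h5 := hU F h1 (by omega)
      exact hcon F h1 (by omega) (by omega) (by omega) (by omega)) F1 hF1 (by omega) hF1s
  -- segment III
  obtain ⟨F3, hF3, hF3c, hF3s, hF3p⟩ := segment A (pot n) 0 s0 (n / 4)
    (n - (n / 40 + 1) - n / 4) (fun F h1 h2 h3 h4 => hstepN F h1 (by omega) h4) F2 hF2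
    (by omega) hF2s
  -- numbers
  have hF3le : F3.subsetSum.card ≤ A.subsetSum.card :=
    Finset.card_le_card (Finset.subsetSum_mono hF3)
  have hF3p' : (F3.subsetSum.card : ℝ) ≤ p := by exact_mod_cast (by omega : F3.subsetSum.card ≤ p)
  have hpR : (4 : ℝ) * p ≤ (n : ℝ) ^ 2 + 4 * n + 12 := by exact_mod_cast hp4
  have hnR : (10 : ℝ) ^ 18 ≤ n := by exact_mod_cast hbig
  have hc3 : (n : ℝ) - F3.card ≤ n / 40 + 1 := by
    have h1 : n ≤ F3.card + (n / 40 + 1) := by omega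
    have h2 : (n : ℝ) ≤ F3.card + (((n / 40 : ℕ) : ℝ) + 1) := by exact_mod_cast h1
    have h3 : ((n / 40 : ℕ) : ℝ) ≤ (n : ℝ) / 40 := Nat.cast_div_le
    linarith
  have hc3' : (0 : ℝ) ≤ (n : ℝ) - F3.card := by
    have : (F3.card : ℝ) ≤ n := by exact_mod_cast (by omega : F3.card ≤ n)
    linarith
  have hc0 : (n : ℝ) - F0.card ≥ n - (n / 2000 + 1) := by
    rw [hF0c]
    have h3 : ((n / 2000 : ℕ) : ℝ) ≤ (n : ℝ) / 2000 := Nat.cast_div_le
    push_cast
    linarith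
  have hk : (n : ℝ) / 8 - 2 ≤ ((n / 4 - (n / 8 + 1) : ℕ) : ℝ) := by
    have h1 : n ≤ 8 * (n / 4 - (n / 8 + 1)) + 16 := by omega
    have h2 : (n : ℝ) ≤ 8 * ((n / 4 - (n / 8 + 1) : ℕ) : ℝ) + 16 := by exact_mod_cast h1
    linarith
  have hp0 : (9999 / 10000) * ((n : ℝ) - (n / 2000 + 1)) ^ 2 / 4 ≤ pot n F0 := by
    unfold pot
    have h1 : (0 : ℝ) ≤ F0.subsetSum.card := Nat.cast_nonneg _
    have h2 : (0 : ℝ) ≤ n - (n / 2000 + 1) := by nlinarith
    have h3 : ((n : ℝ) - (n / 2000 + 1)) ^ 2 ≤ ((n : ℝ) - F0.card) ^ 2 :=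
      pow_le_pow_left₀ h2 hc0 2
    nlinarith
  have hp3 : pot n F3 ≤ p + ((n : ℝ) / 40 + 1) ^ 2 / 4 := by
    unfold pot
    have h3 : ((n : ℝ) - F3.card) ^ 2 ≤ ((n : ℝ) / 40 + 1) ^ 2 :=
      pow_le_pow_left₀ hc3' hc3 2
    nlinarith [sq_nonneg ((n : ℝ) - F3.card)]
  have hmid : ((n : ℝ) / 8 - 2) * (3 * n / 800) ≤
      ((n / 4 - (n / 8 + 1) : ℕ) : ℝ) * (3 * n / 800) :=
    mul_le_mul_of_nonneg_right hk (by positivity)
  simp only [mul_zero, add_zero] at hF1p hF3p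
  have hfinal : (9999 / 10000) * ((n : ℝ) - (n / 2000 + 1)) ^ 2 / 4 + ((n : ℝ) / 8 - 2) * (3 * n / 800)
      ≤ ((n : ℝ) ^ 2 + 4 * n + 12) / 4 + ((n : ℝ) / 40 + 1) ^ 2 / 4 := by linarith
  nlinarith

end Pool.Agent.Lib.FDD
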