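import Mathlib
import Pool.Agent.Lib.MP_fddcb9_nt.Growth

set_option autoImplicit false

namespace Pool.Agent.Lib.FDD

open Finset
open scoped Pointwise

/-- A symmetric set containing zero with doubling less than 3/2 : its double is a subgroup. -/
lemma small_doubling {M : ℕ} [NeZero M] (T : Finset (ZMod M)) (h0 : (0 : ZMod M) ∈ T)
    (hsym : ∀ x ∈ T, -x ∈ T) (hd : 2 * (T + T).card < 3 * T.card) :
    (T + T).card ∣ M ∧ ∀ x ∈ T, (T + T).card • x = 0 := by
  classical
  -- big intersections
  have hbig : ∀ x ∈ T + T, T.card < 2 * (T ∩ T.image (fun t => t + x)).card := by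
    intro x hx
    obtain ⟨a, ha, b, hb, rfl⟩ := Finset.mem_add.mp hx
    have hb' : -b ∈ T := hsym b hb
    have h1 : T.image (fun t => t - b) ⊆ T + T := by
      intro z hz
      obtain ⟨t, ht, rfl⟩ := Finset.mem_image.mp hz
      rw [sub_eq_add_neg]
      exact Finset.add_mem_add ht hb'
    have h2 : T.image (fun t => t + a) ⊆ T + T := by
      intro z hz
      obtain ⟨t, ht, rfl⟩ := Finset.mem_image.mp hz
      exact Finset.add_mem_add ht ha
    have h3 : (T.image (fun t => t - b)).card = T.card :=
      Finset.card_image_of_injective _ (sub_left_injective)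
    have h4 : (T.image (fun t => t + a)).card = T.card :=
      Finset.card_image_of_injective _ (add_left_injective a)
    have h5 : (T.image (fun t => t - b) ∪ T.image (fun t => t + a)).card ≤ (T + T).card :=
      Finset.card_le_card (Finset.union_subset h1 h2)
    have h6 := Finset.card_union_add_card_inter (T.image (fun t => t - b)) (T.image (fun t => t + a))
    have h7 : (T.image (fun t => t - b) ∩ T.image (fun t => t + a)).card
        ≤ (T ∩ T.image (fun t => t + (a + b))).card := by
      refine Finset.card_le_card_of_injOn (fun z => z + b) ?_ ?_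
      · intro z hz
        have hz' := Finset.mem_inter.mp (Finset.mem_coe.mp hz)
        obtain ⟨t, ht, htz⟩ := Finset.mem_image.mp hz'.1
        obtain ⟨u, hu, huz⟩ := Finset.mem_image.mp hz'.2
        refine Finset.mem_coe.mpr (Finset.mem_inter.mpr ⟨?_, ?_⟩)
        · show z + b ∈ T
          rw [← htz]; simpa using ht
        · refine Finset.mem_image.mpr ⟨u, hu, ?_⟩
          show u + (a + b) = z + b
          rw [← huz]; ring
      · intro z _ w _ hzw
        exact add_right_cancel hzw
    omega
  have hclosed : ∀ x ∈ T + T, ∀ y ∈ T + T, x + y ∈ T + T := by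
    intro x hx y hy
    have hny : -y ∈ T + T := by
      obtain ⟨a, ha, b, hb, rfl⟩ := Finset.mem_add.mp hy
      rw [neg_add]
      exact Finset.add_mem_add (hsym a ha) (hsym b hb)
    have h1 := hbig x hx
    have h2 := hbig (-y) hny
    have h3 := Finset.card_union_add_card_inter (T ∩ T.image (fun t => t + x))
      (T ∩ T.image (fun t => t + -y))
    have h4 : ((T ∩ T.image (fun t => t + x)) ∪ (T ∩ T.image (fun t => t + -y))).card ≤ T.card :=
      Finset.card_le_card (Finset.union_subset Finset.inter_subset_left Finset.inter_subset_left)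
    have h5 : 0 < ((T ∩ T.image (fun t => t + x)) ∩ (T ∩ T.image (fun t => t + -y))).card := by
      omega
    obtain ⟨t, ht⟩ := Finset.card_pos.mp h5
    have ht' := Finset.mem_inter.mp ht
    obtain ⟨u, hu, hut⟩ := Finset.mem_image.mp (Finset.mem_inter.mp ht'.1).2
    obtain ⟨w, hw, hwt⟩ := Finset.mem_image.mp (Finset.mem_inter.mp ht'.2).2
    have : x + y = w + -u := by
      have e : u + x = w + -y := by rw [hut, hwt]
      calc x + y = (u + x) + y + -u := by ring
        _ = (w + -y) + y + -u := by rw [e]
        _ = w + -u := by ring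
    rw [this]
    exact Finset.add_mem_add hw (hsym u hu)
  let H : AddSubgroup (ZMod M) :=
    { carrier := ((T + T : Finset (ZMod M)) : Set (ZMod M))
      add_mem' := by
        intro x y hx hy
        exact Finset.mem_coe.mpr (hclosed x (Finset.mem_coe.mp hx) y (Finset.mem_coe.mp hy))
      zero_mem' := by
        refine Finset.mem_coe.mpr ?_
        have := Finset.add_mem_add h0 h0
        simpa using this
      neg_mem' := by
        intro x hx
        obtain ⟨a, ha, b, hb, hab⟩ := Finset.mem_add.mp (Finset.mem_coe.mp hx)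
        refine Finset.mem_coe.mpr ?_
        rw [← hab, neg_add]
        exact Finset.add_mem_add (hsym a ha) (hsym b hb) }
  have hcardH : Nat.card H = (T + T).card := by
    have : Nat.card H = Nat.card ((T + T : Finset (ZMod M)) : Set (ZMod M)) := rfl
    rw [this, Nat.card_coe_set_eq, Set.ncard_coe_finset]
  have hdvd : (T + T).card ∣ M := by
    rw [← hcardH]
    have := AddSubgroup.card_addSubgroup_dvd_card H
    rwa [Nat.card_zmod] at this
  refine ⟨hdvd, ?_⟩
  intro x hx
  have hxH : x ∈ H := by
    show x ∈ ((T + T : Finset (ZMod M)) : Set (ZMod M))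
    refine Finset.mem_coe.mpr ?_
    have := Finset.add_mem_add hx h0
    simpa using this
  have h1 : Nat.card H • (⟨x, hxH⟩ : H) = 0 := card_nsmul_eq_zero'
  rw [← hcardH]
  have h2 : ((Nat.card H • (⟨x, hxH⟩ : H) : H) : ZMod M) = 0 := by rw [h1]; rfl
  rw [AddSubgroup.coe_nsmul] at h2
  exact h2

/-- the number of elements of `D ⊆ [-M, M]` is at most twice the number of classes plus one -/
lemma card_le_two_image (M : ℕ) (hM : 0 < M) (D : Finset ℤ) (hD : ∀ v ∈ D, |v| ≤ (M : ℤ)) :
    D.card ≤ 2 * (D.image (fun v : ℤ => (v : ZMod M))).card + 1 := by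
  classical
  have hne : NeZero M := ⟨hM.ne'⟩
  have h1 : D.card ≤ (D.erase (M : ℤ)).card + 1 := by
    have := Finset.pred_card_le_card_erase (s := D) (a := (M : ℤ))
    omega
  have h2 : (D.erase (M : ℤ)).card ≤
      2 * ((D.erase (M : ℤ)).image (fun v : ℤ => (v : ZMod M))).card := by
    refine Finset.card_le_mul_card_image _ _ ?_
    intro c _
    refine (Finset.card_le_card (t := {(c.val : ℤ), (c.val : ℤ) - M}) ?_).trans Finset.card_le_two
    intro v hv
    obtain ⟨hv1, hv2⟩ := Finset.mem_filter.mp hv
    have hv3 := hD v (Finset.mem_of_mem_erase hv1)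
    have hv4 : v ≠ M := Finset.ne_of_mem_erase hv1
    have habs := abs_le.mp hv3
    have hlt : v < M := lt_of_le_of_ne habs.2 hv4
    have hcv : ((c.val : ℤ) : ZMod M) = (v : ZMod M) := by
      rw [hv2]; push_cast; exact ZMod.natCast_zmod_val c
    have hdvd : (M : ℤ) ∣ v - c.val := (ZMod.intCast_eq_intCast_iff_dvd_sub _ _ _).mp hcv
    have hcl : (c.val : ℤ) < M := by exact_mod_cast ZMod.val_lt c
    have hc0 : (0 : ℤ) ≤ c.val := Int.natCast_nonneg _
    obtain ⟨t, ht⟩ := hdvd
    have hMpos : (0 : ℤ) < M := by exact_mod_cast hM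
    have ht1 : t < 1 := by nlinarith
    have ht2 : -2 < t := by nlinarith
    rw [Finset.mem_insert, Finset.mem_singleton]
    have : t = 0 ∨ t = -1 := by omega
    rcases this with rfl | rfl
    · left; linarith
    · right; linarith
  have h3 : ((D.erase (M : ℤ)).image (fun v : ℤ => (v : ZMod M))).card
      ≤ (D.image (fun v : ℤ => (v : ZMod M))).card :=
    Finset.card_le_card (Finset.image_subset_image (Finset.erase_subset _ _))
  omega

end Pool.Agent.Lib.FDD
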