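import Mathlib
import Pool.Agent.Lib.MP_fddcb9_nt.Stage2
import Pool.Agent.Lib.MP_fddcb9_nt.Rectify
import Pool.Agent.Lib.MP_fddcb9_nt.Struct

set_option autoImplicit false

namespace Pool.Agent.Lib.FDD

open Finset
open scoped Pointwise

variable {p : ℕ}

lemma lam_zsmul_le (S : Finset (ZMod p)) (x : ZMod p) (k : ℤ) :
    lam S (k • x) ≤ k.natAbs * lam S x := by
  rcases Int.natAbs_eq k with h | h
  · conv_lhs => rw [h]
    rw [natCast_zsmul]
    exact lam_nsmul_le S x _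
  · conv_lhs => rw [h]
    rw [neg_smul, natCast_zsmul, lam_neg]
    exact lam_nsmul_le S x _

/-- upper bound for the level set -/
lemma card_Bset_le [hp : Fact p.Prime] (S : Finset (ZMod p)) (m r σ n : ℕ)
    (hσ1 : σ ≤ S.card) (hσ2 : σ ≤ p - S.card) (hσn : n ^ 2 ≤ 300000000 * σ)
    (hn : 10 ^ 18 ≤ n) (hr : r ≤ n) (hr2 : n ≤ 2 * r) (hm : 200 * m ≤ 101 * r) :
    ((Bset S (200 * m)).card : ℝ) ≤ 202.3 * r := by
  set B := Bset S (200 * m) with hB
  have hr1 : (1 : ℝ) ≤ r := by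
    have : 1 ≤ r := by omega
    exact_mod_cast this
  have hrbig : (10 : ℝ) ^ 17 ≤ r := by
    have : 10 ^ 17 ≤ r := by omega
    exact_mod_cast this
  rcases Nat.lt_or_ge 1 B.card with h1 | h1
  · obtain ⟨e, he⟩ : ∃ e, B.card = e + 1 := ⟨B.card - 1, by omega⟩
    have hnn : 10 ^ 18 * n ≤ n ^ 2 := by rw [pow_two n]; exact Nat.mul_le_mul_right _ hn
    have hσpos : 0 < σ := by omega
    have hg := growth' S B (200 * m) e σ (fun x hx => mem_Bset.mp hx) he.ge (by omega) hσpos hσ1 hσ2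
    have hσr : 10 ^ 9 * r ≤ σ := by omega
    have hg' : (e : ℝ) * σ < 2 * (200 * m) * (σ + e) := by exact_mod_cast hg
    have hm' : (200 : ℝ) * m ≤ 101 * r := by exact_mod_cast hm
    have hσr' : (10 : ℝ) ^ 9 * r ≤ σ := by exact_mod_cast hσr
    rw [he]
    push_cast
    by_contra hcon
    push Not at hcon
    have he2 : (202.2 : ℝ) * r ≤ e := by linarith
    have h2 : (e : ℝ) * σ < 202 * r * (σ + e) := by
      have : (2 : ℝ) * (200 * m) * (σ + e) ≤ 202 * r * (σ + e) :=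
        mul_le_mul_of_nonneg_right (by linarith)
          (add_nonneg (Nat.cast_nonneg _) (Nat.cast_nonneg _))
      linarith
    -- e (σ - 202 r) < 202 r σ
    have h3 : (202.2 : ℝ) * r * (σ - 202 * r) ≤ e * (σ - 202 * r) :=
      mul_le_mul_of_nonneg_right he2 (by linarith)
    have h4 : (202.2 : ℝ) * r * (σ - 202 * r) < 202 * r * σ := by nlinarith
    nlinarith
  · have : (B.card : ℝ) ≤ 1 := by exact_mod_cast h1
    linarith

lemma valMinAbs_intCast_small [hp : Fact p.Prime] (w : ℤ) (hw : 2 * |w| < p) :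
    ((w : ZMod p)).valMinAbs = w := by
  have hne : NeZero p := ⟨hp.out.ne_zero⟩
  rw [ZMod.valMinAbs_spec]
  refine ⟨rfl, ?_⟩
  have := abs_le.mp (le_refl |w|)
  rw [Set.mem_Ioc]
  constructor <;> linarith [this.1, this.2]

lemma int_eq_of_zmod_eq (p : ℕ) (u v : ℤ) (hu : 2 * |u| < p) (hv : 2 * |v| < p)
    (h : (u : ZMod p) = (v : ZMod p)) : u = v := by
  have hdvd := (ZMod.intCast_eq_intCast_iff_dvd_sub u v p).mp h
  have h1 : |v - u| < p := by
    calc |v - u| ≤ |v| + |u| := abs_sub _ _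
      _ < p := by linarith
  have h2 := Int.eq_zero_of_abs_lt_dvd hdvd h1
  linarith

end Pool.Agent.Lib.FDD
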