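import Mathlib
import Pool.Agent.Lib.MP_fddcb9_nt.Struct2

set_option autoImplicit false

namespace Pool.Agent.Lib.FDD

open Finset
open scoped Pointwise

variable {p : ℕ}

/-- the integers of size less than `p/1000` whose `ξ⁻¹`-dilate has small `lam` -/
noncomputable def Dz (p : ℕ) (S : Finset (ZMod p)) (ξ : ZMod p) (m : ℕ) : Finset ℤ :=
  (Finset.Icc (-(p : ℤ)) p).filter (fun v => 1000 * |v| < p ∧ lam S (ξ⁻¹ * (v : ZMod p)) ≤ m)

lemma mem_Dz {S : Finset (ZMod p)} {ξ : ZMod p} {m : ℕ} {v : ℤ} :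
    v ∈ Dz p S ξ m ↔ 1000 * |v| < p ∧ lam S (ξ⁻¹ * (v : ZMod p)) ≤ m := by
  unfold Dz
  rw [Finset.mem_filter, Finset.mem_Icc]
  constructor
  · exact fun h => h.2
  · intro h
    refine ⟨?_, h⟩
    have h1 := abs_le.mp (le_refl |v|)
    have h2 := h.1
    have h3 : 0 ≤ |v| := abs_nonneg v
    constructor <;> linarith [h1.1, h1.2]

lemma neg_mem_Dz {S : Finset (ZMod p)} {ξ : ZMod p} {m : ℕ} {v : ℤ} (h : v ∈ Dz p S ξ m) :
    -v ∈ Dz p S ξ m := by
  rw [mem_Dz] at h ⊢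
  rw [abs_neg]
  refine ⟨h.1, ?_⟩
  push_cast
  rw [mul_neg, lam_neg]
  exact h.2

lemma zero_mem_Dz (hp : 0 < p) {S : Finset (ZMod p)} {ξ : ZMod p} {m : ℕ} :
    (0 : ℤ) ∈ Dz p S ξ m := by
  rw [mem_Dz]
  refine ⟨by simpa using hp, ?_⟩
  simp [lam_zero]

/-- many elements in the level set -/
lemma card_sumset_le [hp : Fact p.Prime] (S : Finset (ZMod p)) (ξ : ZMod p) (hξ : ξ ≠ 0) (m : ℕ)
    (M : ℕ) (hM : 0 < M) (hMD : (M : ℤ) ∈ Dz p S ξ m) :
    397 * (((Dz p S ξ m).image (fun v : ℤ => (v : ZMod M))) +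
      ((Dz p S ξ m).image (fun v : ℤ => (v : ZMod M)))).card ≤ (Bset S (200 * m)).card := by
  classical
  set T := (Dz p S ξ m).image (fun v : ℤ => (v : ZMod M)) with hT
  have hchoice : ∀ c : ZMod M, ∃ u : ℤ × ℤ, c ∈ T + T →
      u.1 ∈ Dz p S ξ m ∧ u.2 ∈ Dz p S ξ m ∧ ((u.1 + u.2 : ℤ) : ZMod M) = c := by
    intro c
    by_cases hc : c ∈ T + T
    · obtain ⟨a, ha, b, hb, hab⟩ := Finset.mem_add.mp hc
      obtain ⟨y, hy, rfl⟩ := Finset.mem_image.mp ha
      obtain ⟨z, hz, rfl⟩ := Finset.mem_image.mp hb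
      exact ⟨(y, z), fun _ => ⟨hy, hz, by push_cast; exact hab⟩⟩
    · exact ⟨(0, 0), fun h => absurd h hc⟩
  choose u hu using hchoice
  have hcardI : (Finset.Icc (-198 : ℤ) 198).card = 397 := by simp
  have hprod : ((T + T) ×ˢ (Finset.Icc (-198 : ℤ) 198)).card = 397 * (T + T).card := by
    rw [Finset.card_product, hcardI, mul_comm]
  rw [← hprod]
  have hMabs := (mem_Dz.mp hMD).1
  rw [abs_of_nonneg (Int.natCast_nonneg M)] at hMabs
  have hp0 : (0 : ℤ) < p := by exact_mod_cast hp.out.pos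
  have hsmall : ∀ c ∈ T + T, ∀ j ∈ Finset.Icc (-198 : ℤ) 198,
      2 * |(u c).1 + (u c).2 + j * M| < p := by
    intro c hc j hj
    obtain ⟨h1, h2, _⟩ := hu c hc
    have h1' := (mem_Dz.mp h1).1
    have h2' := (mem_Dz.mp h2).1
    rw [Finset.mem_Icc] at hj
    have hjabs : |j| ≤ 198 := abs_le.mpr hj
    have h3 : |j * (M : ℤ)| ≤ 198 * M := by
      rw [abs_mul, abs_of_nonneg (Int.natCast_nonneg M)]
      exact mul_le_mul_of_nonneg_right hjabs (Int.natCast_nonneg M)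
    have h4 : |(u c).1 + (u c).2 + j * M| ≤ |(u c).1| + |(u c).2| + |j * (M : ℤ)| := abs_add_three _ _ _
    linarith
  refine Finset.card_le_card_of_injOn
    (fun z => ξ⁻¹ * ((((u z.1).1 + (u z.1).2 + z.2 * M : ℤ)) : ZMod p)) ?_ ?_
  · rintro ⟨c, j⟩ hz
    have hz' := Finset.mem_product.mp (Finset.mem_coe.mp hz)
    obtain ⟨h1, h2, _⟩ := hu c hz'.1
    have h1' := (mem_Dz.mp h1).2
    have h2' := (mem_Dz.mp h2).2
    have hM' := (mem_Dz.mp hMD).2
    have hj := Finset.mem_Icc.mp hz'.2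
    refine Finset.mem_coe.mpr (mem_Bset.mpr ?_)
    have heq : ξ⁻¹ * ((((u c).1 + (u c).2 + j * M : ℤ)) : ZMod p)
        = ξ⁻¹ * ((u c).1 : ZMod p) + ξ⁻¹ * ((u c).2 : ZMod p)
          + j • (ξ⁻¹ * (((M : ℕ) : ℤ) : ZMod p)) := by
      push_cast
      rw [zsmul_eq_mul]
      ring
    show lam S (ξ⁻¹ * ((((u c).1 + (u c).2 + j * M : ℤ)) : ZMod p)) ≤ 200 * m
    rw [heq]
    have e1 := lam_add_le S (ξ⁻¹ * ((u c).1 : ZMod p) + ξ⁻¹ * ((u c).2 : ZMod p))
      (j • (ξ⁻¹ * (((M : ℕ) : ℤ) : ZMod p)))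
    have e2 := lam_add_le S (ξ⁻¹ * ((u c).1 : ZMod p)) (ξ⁻¹ * ((u c).2 : ZMod p))
    have e3 := lam_zsmul_le S (ξ⁻¹ * (((M : ℕ) : ℤ) : ZMod p)) j
    have hjn : j.natAbs ≤ 198 := by omega
    have e4 : j.natAbs * lam S (ξ⁻¹ * (((M : ℕ) : ℤ) : ZMod p)) ≤ 198 * m :=
      Nat.mul_le_mul hjn hM'
    omega
  · rintro ⟨c, j⟩ hz ⟨c', j'⟩ hz' heq
    have hz1 := Finset.mem_product.mp (Finset.mem_coe.mp hz)
    have hz2 := Finset.mem_product.mp (Finset.mem_coe.mp hz')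
    have hinv : ξ⁻¹ ≠ 0 := inv_ne_zero hξ
    have h1 := mul_left_cancel₀ hinv heq
    have h2 := int_eq_of_zmod_eq p _ _ (hsmall c hz1.1 j hz1.2) (hsmall c' hz2.1 j' hz2.2) h1
    have h3 := (hu c hz1.1).2.2
    have h4 := (hu c' hz2.1).2.2
    have hcc : c = c' := by
      have e1 : (((u c).1 + (u c).2 + j * M : ℤ) : ZMod M) = c := by
        rw [Int.cast_add, h3]; simp
      have e2 : (((u c').1 + (u c').2 + j' * M : ℤ) : ZMod M) = c' := by
        rw [Int.cast_add, h4]; simp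
      rw [← e1, ← e2, h2]
    subst hcc
    have hMne : (M : ℤ) ≠ 0 := by exact_mod_cast hM.ne'
    have hjj : j * M = j' * M := by linarith
    have : j = j' := mul_right_cancel₀ hMne hjj
    rw [this]

theorem structure_thm [hp : Fact p.Prime] (A : Finset (ZMod p)) (h0 : (0 : ZMod p) ∉ A)
    (hA : A.subsetSum.card < p) (hn4 : A.card ^ 2 ≤ 4 * p)
    (hp4 : 4 * p ≤ A.card ^ 2 + 4 * A.card + 12) (hbig : 10 ^ 18 ≤ A.card) :
    ∃ b : ZMod p, b ≠ 0 ∧ ∃ R ⊆ A, ∃ L : ℕ, 0 < L ∧ 74 * A.card ≤ 100 * R.card ∧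
      25 * L ≤ 13 * R.card ∧ ∀ x ∈ R, (b * x).valMinAbs.natAbs ≤ L := by
  classical
  have hne : NeZero p := ⟨hp.out.ne_zero⟩
  obtain ⟨F, hFA, hF1, hF2, hF3, hF4, hlam⟩ := stage_exists A h0 hA hn4 hp4 hbig
  obtain ⟨n, hn⟩ : ∃ n, A.card = n := ⟨_, rfl⟩
  rw [hn] at hn4 hp4 hbig hF1 hF2 hF3 hF4 hlam ⊢
  obtain ⟨r, hr⟩ : ∃ r, n - F.card = r := ⟨_, rfl⟩
  rw [hr] at hlam
  have hRcard : (A \ F).card = r := by rw [Finset.card_sdiff_of_subset hFA, hn, hr]
  have hr34 : 3 * n ≤ 4 * r := by omega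
  have hrn : r ≤ n := by omega
  obtain ⟨S, hS⟩ : ∃ S, F.subsetSum = S := ⟨_, rfl⟩
  rw [hS] at hF3 hF4 hlam
  have hSpos : 0 < S.card := by rw [← hS]; exact card_subsetSum_pos F
  have hSlt : S.card < p := by
    rw [← hS]; exact (Finset.card_le_card (Finset.subsetSum_mono hFA)).trans_lt hA
  obtain ⟨m, hm⟩ : ∃ m, 101 * r / 200 = m := ⟨_, rfl⟩
  have hm200 : 200 * m ≤ 101 * r := by omega
  have hlam' : ∀ x ∈ A \ F, lam S x ≤ m := by
    intro x hx
    have := hlam x hx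
    omega
  -- level set bound
  have hBle : ((Bset S (200 * m)).card : ℝ) ≤ 202.3 * r := by
    refine card_Bset_le S m r (min S.card (p - S.card)) n (min_le_left _ _) (min_le_right _ _) ?_
      hbig hrn (by omega) hm200
    rcases le_total S.card (p - S.card) with h | h
    · rw [min_eq_left h]; exact hF3
    · rw [min_eq_right h]; exact hF4
  -- dilation
  obtain ⟨ξ, hξ, hW⟩ := exists_dilation S (A \ F) m hlam' hSpos hSlt
  have hWC : (∑ x ∈ A \ F, (1 - Real.cos (2 * Real.pi * ((ξ * x).valMinAbs : ℝ) / p)))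
      ≤ 310000000 := by
    set W := ∑ x ∈ A \ F, (1 - Real.cos (2 * Real.pi * ((ξ * x).valMinAbs : ℝ) / p)) with hWdef
    have hs1 : (0 : ℝ) < S.card := by exact_mod_cast hSpos
    have hs2 : (0 : ℝ) < (p : ℝ) - S.card := by
      have : (S.card : ℝ) < p := by exact_mod_cast hSlt
      linarith
    have hF3' : (n : ℝ) ^ 2 ≤ 300000000 * S.card := by exact_mod_cast hF3
    have hF4' : (n : ℝ) ^ 2 ≤ 300000000 * ((p : ℝ) - S.card) := by
      have : n ^ 2 ≤ 300000000 * (p - S.card) := hF4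
      have h2 : ((n ^ 2 : ℕ) : ℝ) ≤ ((300000000 * (p - S.card) : ℕ) : ℝ) := by exact_mod_cast this
      push_cast [Nat.cast_sub hSlt.le] at h2
      exact h2
    rw [hRcard] at hW
    by_contra hcon
    push Not at hcon
    have hprodpos : 0 < (S.card : ℝ) * ((p : ℝ) - S.card) := mul_pos hs1 hs2
    have h1 : 310000000 * ((S.card : ℝ) * ((p : ℝ) - S.card)) < p * (r * m) :=
      (mul_lt_mul_of_pos_right hcon hprodpos).trans_le hW
    have hm' : (200 : ℝ) * m ≤ 101 * r := by exact_mod_cast hm200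
    have hrn' : (r : ℝ) ≤ n := by exact_mod_cast hrn
    have hr0 : (0 : ℝ) ≤ r := Nat.cast_nonneg _
    have hrm : (r : ℝ) * m ≤ 0.505 * (n : ℝ) ^ 2 := by
      have e1 : (r : ℝ) * m ≤ r * (101 / 200 * r) :=
        mul_le_mul_of_nonneg_left (by linarith) hr0
      nlinarith
    have hp' : (0 : ℝ) < p := by exact_mod_cast hp.out.pos
    have h2 : (p : ℝ) * (r * m) ≤ p * (0.505 * (n : ℝ) ^ 2) := mul_le_mul_of_nonneg_left hrm hp'.le
    -- n^2 * p ≤ 2 * 3e8 * s (p - s)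
    have h3 : (n : ℝ) ^ 2 * p ≤ 600000000 * ((S.card : ℝ) * ((p : ℝ) - S.card)) := by
      have e1 : (n : ℝ) ^ 2 * ((p : ℝ) - S.card) ≤ 300000000 * S.card * ((p : ℝ) - S.card) :=
        mul_le_mul_of_nonneg_right hF3' hs2.le
      have e2 : (n : ℝ) ^ 2 * (S.card : ℝ) ≤ 300000000 * ((p : ℝ) - S.card) * S.card :=
        mul_le_mul_of_nonneg_right hF4' hs1.le
      nlinarith
    nlinarith
  have hfar := card_far (A \ F) ξ 310000000 1000 (by norm_num) hWC
  set Far := (A \ F).filter (fun x => p ≤ 1000 * (ξ * x).valMinAbs.natAbs) with hFardef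
  have hFar' : Far.card ≤ 4 * 10 ^ 13 := by
    have h1 : 8 * (Far.card : ℝ) ≤ 8 * (4 * 10 ^ 13) := by
      refine hfar.trans ?_
      norm_num
    have h2 : (Far.card : ℝ) ≤ ((4 * 10 ^ 13 : ℕ) : ℝ) := by push_cast; linarith
    exact_mod_cast h2
  set R := (A \ F) \ Far with hRdef
  have hRc : R.card = r - Far.card := by
    rw [hRdef, Finset.card_sdiff_of_subset (Finset.filter_subset _ _), hRcard]
  have hR999 : 999 * r ≤ 1000 * R.card := by omega
  have hRmem : ∀ x ∈ R, x ∈ A ∧ lam S x ≤ m ∧ 1000 * (ξ * x).valMinAbs.natAbs < p := by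
    intro x hx
    have h1 := Finset.mem_sdiff.mp hx
    refine ⟨(Finset.mem_sdiff.mp h1.1).1, hlam' x h1.1, ?_⟩
    by_contra hcon
    push Not at hcon
    exact h1.2 (Finset.mem_filter.mpr ⟨h1.1, hcon⟩)
  set D := Dz p S ξ m with hDdef
  have hRD : ∀ x ∈ R, (ξ * x).valMinAbs ∈ D := by
    intro x hx
    obtain ⟨_, h2, h3⟩ := hRmem x hx
    rw [hDdef, mem_Dz]
    refine ⟨?_, ?_⟩
    · rw [Int.abs_eq_natAbs]; exact_mod_cast h3
    · rw [ZMod.coe_valMinAbs, inv_mul_cancel_left₀ hξ]; exact h2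
  have hRcard1 : R.card + 1 ≤ D.card := by
    have h1 : R.card ≤ (D.erase 0).card := by
      refine Finset.card_le_card_of_injOn (fun x => (ξ * x).valMinAbs) ?_ ?_
      · intro x hx
        have hx' := Finset.mem_coe.mp hx
        refine Finset.mem_coe.mpr (Finset.mem_erase.mpr ⟨?_, hRD x hx'⟩)
        intro h
        have h2 := (ZMod.valMinAbs_eq_zero _).mp h
        rcases mul_eq_zero.mp h2 with h3 | h3
        · exact hξ h3
        · exact h0 (h3 ▸ (hRmem x hx').1)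
      · intro x _ y _ hxy
        have h2 := ZMod.injective_valMinAbs hxy
        exact mul_left_cancel₀ hξ h2
    have h2 : (D.erase 0).card = D.card - 1 := Finset.card_erase_of_mem (zero_mem_Dz hp.out.pos)
    have h3 : 0 < D.card := Finset.card_pos.mpr ⟨0, zero_mem_Dz hp.out.pos⟩
    omega
  have hRpos : 0 < R.card := by omega
  -- the maximum
  obtain ⟨Mz, hMzD, hMzmax⟩ := Finset.exists_max_image D (fun v => v) ⟨0, zero_mem_Dz hp.out.pos⟩
  have hMzpos : 0 < Mz := by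
    obtain ⟨x, hx⟩ := Finset.card_pos.mp hRpos
    have h1 := hRD x hx
    have h2 : (ξ * x).valMinAbs ≠ 0 := by
      intro h
      have h2 := (ZMod.valMinAbs_eq_zero _).mp h
      rcases mul_eq_zero.mp h2 with h3 | h3
      · exact hξ h3
      · exact h0 (h3 ▸ (hRmem x hx).1)
    have h3 := hMzmax _ h1
    have h4 := hMzmax _ (neg_mem_Dz h1)
    omega
  obtain ⟨M, hM⟩ : ∃ M : ℕ, (M : ℤ) = Mz := ⟨Mz.toNat, Int.toNat_of_nonneg hMzpos.le⟩
  rw [← hM] at hMzD hMzmax hMzpos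
  have hMpos : 0 < M := by exact_mod_cast hMzpos
  have hDabs : ∀ v ∈ D, |v| ≤ (M : ℤ) := by
    intro v hv
    rw [abs_le]
    have h1 := hMzmax v hv
    have h2 := hMzmax (-v) (neg_mem_Dz hv)
    constructor <;> linarith
  have hneM : NeZero M := ⟨hMpos.ne'⟩
  set T := D.image (fun v : ℤ => (v : ZMod M)) with hTdef
  have hDT : D.card ≤ 2 * T.card + 1 := card_le_two_image M hMpos D hDabs
  have hTT : 397 * (T + T).card ≤ (Bset S (200 * m)).card :=
    card_sumset_le S ξ hξ m M hMpos hMzD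
  obtain ⟨L, hL⟩ : ∃ L, (T + T).card = L := ⟨_, rfl⟩
  rw [hL] at hTT
  have hTR : R.card ≤ 2 * T.card := by omega
  have hLr : 397 * (L : ℝ) ≤ 202.3 * r := by
    refine le_trans ?_ hBle
    exact_mod_cast hTT
  have hLr' : 3970 * L ≤ 2023 * r := by
    have : (3970 : ℝ) * L ≤ 2023 * r := by linarith
    exact_mod_cast this
  have hT0 : (0 : ZMod M) ∈ T := by
    rw [hTdef]; exact Finset.mem_image.mpr ⟨0, zero_mem_Dz hp.out.pos, by simp⟩
  have hTsym : ∀ x ∈ T, -x ∈ T := by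
    intro x hx
    obtain ⟨v, hv, rfl⟩ := Finset.mem_image.mp hx
    exact Finset.mem_image.mpr ⟨-v, neg_mem_Dz hv, by push_cast; rfl⟩
  have hdoub : 2 * (T + T).card < 3 * T.card := by rw [hL]; omega
  obtain ⟨hLM, hLx⟩ := small_doubling T hT0 hTsym hdoub
  rw [hL] at hLM hLx
  obtain ⟨d, hd⟩ := hLM
  have hLpos : 0 < L := Nat.pos_of_ne_zero (by rintro rfl; omega)
  have hdpos : 0 < d := Nat.pos_of_ne_zero (by rintro rfl; omega)
  have hDdiv : ∀ v ∈ D, (d : ℤ) ∣ v := by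
    intro v hv
    have h1 := hLx (v : ZMod M) (Finset.mem_image.mpr ⟨v, hv, rfl⟩)
    rw [nsmul_eq_mul] at h1
    have h2 : (((L : ℤ) * v : ℤ) : ZMod M) = 0 := by push_cast; exact h1
    have h3 := (ZMod.intCast_zmod_eq_zero_iff_dvd _ _).mp h2
    rw [hd] at h3
    push_cast at h3
    have hLne : (L : ℤ) ≠ 0 := by exact_mod_cast hLpos.ne'
    exact (mul_dvd_mul_iff_left hLne).mp h3
  have hMp : 1000 * M < p := by
    have := (mem_Dz.mp hMzD).1
    rw [abs_of_nonneg (Int.natCast_nonneg M)] at this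
    exact_mod_cast this
  have hdM : d ≤ M := by rw [hd]; exact Nat.le_mul_of_pos_left _ hLpos
  have hLM' : L ≤ M := by rw [hd]; exact Nat.le_mul_of_pos_right _ hdpos
  have hdne : (d : ZMod p) ≠ 0 := by
    intro h
    have h1 := (ZMod.natCast_eq_zero_iff d p).mp h
    have h2 := Nat.le_of_dvd hdpos h1
    omega
  refine ⟨(d : ZMod p)⁻¹ * ξ, mul_ne_zero (inv_ne_zero hdne) hξ, R, ?_, L, hLpos, by omega,
    by omega, ?_⟩
  · intro x hx; exact (hRmem x hx).1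
  · intro x hx
    have hxD := hRD x hx
    obtain ⟨w, hw⟩ := hDdiv _ hxD
    have habs := hDabs _ hxD
    rw [hw, abs_mul, abs_of_nonneg (Int.natCast_nonneg d), hd] at habs
    have hwL : |w| ≤ (L : ℤ) := by
      have hdz : (0 : ℤ) < d := by exact_mod_cast hdpos
      push_cast at habs
      rw [mul_comm (L : ℤ)] at habs
      exact le_of_mul_le_mul_left habs hdz
    have hval : (d : ZMod p)⁻¹ * ξ * x = (w : ZMod p) := by
      have h1 : ξ * x = (((ξ * x).valMinAbs : ℤ) : ZMod p) := (ZMod.coe_valMinAbs _).symm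
      rw [hw] at h1
      rw [mul_assoc, h1]
      push_cast
      rw [inv_mul_cancel_left₀ hdne]
    rw [hval, valMinAbs_intCast_small w]
    · rw [Int.abs_eq_natAbs] at hwL
      exact_mod_cast hwL
    · have : (1000 : ℤ) * M < p := by exact_mod_cast hMp
      have h2 : (L : ℤ) ≤ M := by exact_mod_cast hLM'
      have h3 : (0 : ℤ) ≤ M := Int.natCast_nonneg M
      linarith

end Pool.Agent.Lib.FDD
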