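import Mathlib
import Pool.Agent.Lib.MP_fddcb9_nt.Struct3
import Pool.Agent.Lib.MP_fddcb9_nt.Final3

set_option autoImplicit false

namespace Pool.Agent.Lib.FDD

open Finset

variable {p : ℕ}

lemma subsetSum_image_mul (A : Finset (ZMod p)) (b : ZMod p) [hp : Fact p.Prime] (hb : b ≠ 0) :
    (A.image (fun a => b * a)).subsetSum = A.subsetSum.image (fun a => b * a) := by
  classical
  have hinj : Function.Injective (fun a : ZMod p => b * a) := fun x y h => mul_left_cancel₀ hb h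
  ext z
  rw [Finset.mem_subsetSum_iff, Finset.mem_image]
  constructor
  · rintro ⟨B, hB, hs⟩
    obtain ⟨C, hC, rfl⟩ := Finset.subset_image_iff.mp hB
    refine ⟨∑ c ∈ C, c, ?_, ?_⟩
    · rw [Finset.mem_subsetSum_iff]; exact ⟨C, by exact_mod_cast hC, rfl⟩
    · rw [← hs, Finset.sum_image (fun x _ y _ h => hinj h), Finset.mul_sum]
  · rintro ⟨s, hs, rfl⟩
    obtain ⟨C, hC, rfl⟩ := Finset.mem_subsetSum_iff.mp hs
    refine ⟨C.image (fun a => b * a), Finset.image_subset_image hC, ?_⟩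
    rw [Finset.sum_image (fun x _ y _ h => hinj h), Finset.mul_sum]

/-- Main theorem for sets of nonzero residues. -/
theorem main_nonzero [hp : Fact p.Prime] (A : Finset (ZMod p)) (h0 : (0 : ZMod p) ∉ A)
    (hA : A.subsetSum.card < p) (hn4 : A.card ^ 2 ≤ 4 * p)
    (hp4 : 4 * p ≤ A.card ^ 2 + 4 * A.card + 12) (hbig : 10 ^ 18 ≤ A.card) :
    ∃ b : ZMod p, b ≠ 0 ∧ ∑ y ∈ A.image (fun a => b * a), wt y + 2 ≤ p := by
  classical
  obtain ⟨b, hb, R, hRA, L, hL, h74, h25, hRL⟩ := structure_thm A h0 hA hn4 hp4 hbig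
  have hinj : Function.Injective (fun a : ZMod p => b * a) := fun x y h => mul_left_cancel₀ hb h
  refine ⟨b, hb, ?_⟩
  have hcA : (A.image (fun a => b * a)).card = A.card := Finset.card_image_of_injective _ hinj
  have hcR : (R.image (fun a => b * a)).card = R.card := Finset.card_image_of_injective _ hinj
  refine main_nonzero_aux (A.image (fun a => b * a)) (R.image (fun a => b * a))
    (Finset.image_subset_image hRA) ?_ A.card hcA L (by rw [hcR]; exact h74)
    (by rw [hcR]; exact h25) ?_ hp4 ((by norm_num : (1000000 : ℕ) ≤ 10 ^ 18).trans hbig) ?_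
  · intro h
    obtain ⟨a, ha, h2⟩ := Finset.mem_image.mp h
    rcases mul_eq_zero.mp h2 with h3 | h3
    · exact hb h3
    · exact h0 (h3 ▸ ha)
  · intro x hx
    obtain ⟨a, ha, rfl⟩ := Finset.mem_image.mp hx
    exact hRL a ha
  · rw [subsetSum_image_mul A b hb, Finset.card_image_of_injective _ hinj]
    exact hA

/-- No zero-sum-free sets of this size. -/
theorem exists_zero_sum [hp : Fact p.Prime] (A : Finset (ZMod p)) (h0 : (0 : ZMod p) ∉ A)
    (hA : A.subsetSum.card < p) (hn4 : A.card ^ 2 ≤ 4 * p)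
    (hp4 : 4 * p ≤ A.card ^ 2 + 4 * A.card + 12) (hbig : 10 ^ 18 ≤ A.card) :
    ∃ x ∈ A, ∃ y ∈ A, x ≠ y ∧ x + y = 0 := by
  classical
  obtain ⟨b, hb, R, hRA, L, hL, h74, h25, hRL⟩ := structure_thm A h0 hA hn4 hp4 hbig
  have hmaps : ∀ x ∈ R, wt (b * x) ∈ Finset.Icc 1 L := by
    intro x hx
    rw [Finset.mem_Icc]
    refine ⟨wt_pos _ ?_, hRL x hx⟩
    intro h
    rcases mul_eq_zero.mp h with h3 | h3
    · exact hb h3
    · exact h0 (h3 ▸ hRA hx)
  have hcard : (Finset.Icc 1 L).card < R.card := by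
    rw [Nat.card_Icc]; omega
  obtain ⟨x, hx, y, hy, hxy, heq⟩ := Finset.exists_ne_map_eq_of_card_lt_of_maps_to hcard hmaps
  refine ⟨x, hRA hx, y, hRA hy, hxy, ?_⟩
  have h1 : (b * x).valMinAbs.natAbs = (b * y).valMinAbs.natAbs := heq
  rcases Int.natAbs_eq_natAbs_iff.mp h1 with h2 | h2
  · exact absurd (mul_left_cancel₀ hb (ZMod.injective_valMinAbs h2)) hxy
  · have h3 : b * x = -(b * y) := by
      have e1 := ZMod.coe_valMinAbs (b * x)
      rw [h2] at e1
      rw [Int.cast_neg, ZMod.coe_valMinAbs] at e1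
      exact e1.symm
    have h4 : b * (x + y) = 0 := by rw [mul_add, h3]; ring
    exact (mul_eq_zero.mp h4).resolve_left hb

/-- The easy direction. -/
theorem easy_direction [hp : Fact p.Prime] (A : Finset (ZMod p)) (b : ZMod p) (hb : b ≠ 0)
    (hN : ∑ y ∈ A.image (fun a => b * a), |(ZMod.valMinAbs y)| ≤ (p : ℤ) - 2) :
    ∃ x : ZMod p, ∀ B : Finset (ZMod p), B ⊆ A → B.sum id ≠ x := by
  classical
  have hinj : Function.Injective (fun a : ZMod p => b * a) := fun x y h => mul_left_cancel₀ hb h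
  set A' := A.image (fun a => b * a) with hA'
  set σ : ℤ := ∑ y ∈ A', max (ZMod.valMinAbs y) 0 with hσ
  refine ⟨b⁻¹ * ((σ + 1 : ℤ) : ZMod p), ?_⟩
  intro B hB hsum
  have h1 : ∑ y ∈ B.image (fun a => b * a), y = ((σ + 1 : ℤ) : ZMod p) := by
    rw [Finset.sum_image (fun x _ y _ h => hinj h), ← Finset.mul_sum]
    have : ∑ x ∈ B, x = B.sum id := rfl
    rw [this, hsum, mul_inv_cancel_left₀ hb]
  set C := B.image (fun a => b * a) with hC
  have hCA : C ⊆ A' := Finset.image_subset_image hB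
  set s : ℤ := ∑ y ∈ C, ZMod.valMinAbs y with hs
  have h2 : ((s : ℤ) : ZMod p) = ∑ y ∈ C, y := by
    rw [hs, Int.cast_sum]
    exact Finset.sum_congr rfl (fun y _ => ZMod.coe_valMinAbs y)
  have h3 : ((s : ℤ) : ZMod p) = ((σ + 1 : ℤ) : ZMod p) := by rw [h2, h1]
  have hdvd := (ZMod.intCast_eq_intCast_iff_dvd_sub _ _ _).mp h3
  -- s ≤ σ
  have hle : s ≤ σ := by
    calc s ≤ ∑ y ∈ C, max (ZMod.valMinAbs y) 0 := Finset.sum_le_sum (fun y _ => le_max_left _ _)
      _ ≤ σ := Finset.sum_le_sum_of_subset_of_nonneg hCA (fun y _ _ => le_max_right _ _)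
  -- -s ≤ sum of negative parts
  have hge : -s ≤ ∑ y ∈ A', max (-ZMod.valMinAbs y) 0 := by
    calc -s = ∑ y ∈ C, -ZMod.valMinAbs y := by rw [hs, Finset.sum_neg_distrib]
      _ ≤ ∑ y ∈ C, max (-ZMod.valMinAbs y) 0 := Finset.sum_le_sum (fun y _ => le_max_left _ _)
      _ ≤ _ := Finset.sum_le_sum_of_subset_of_nonneg hCA (fun y _ _ => le_max_right _ _)
  have htot : σ + ∑ y ∈ A', max (-ZMod.valMinAbs y) 0 = ∑ y ∈ A', |(ZMod.valMinAbs y)| := by
    rw [hσ, ← Finset.sum_add_distrib]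
    refine Finset.sum_congr rfl (fun y _ => ?_)
    rcases le_total 0 (ZMod.valMinAbs y) with h | h
    · rw [max_eq_left h, max_eq_right (by linarith), abs_of_nonneg h]; ring
    · rw [max_eq_right h, max_eq_left (by linarith), abs_of_nonpos h]; ring
  have hpos : 0 < σ + 1 - s := by linarith
  have hlt : σ + 1 - s < p := by linarith
  exact absurd (Int.le_of_dvd hpos hdvd) (not_le.mpr hlt)

/-- Key form: incomplete sets of critical size have a dilate of small norm. -/
theorem main_key [hp : Fact p.Prime] (A : Finset (ZMod p)) (k : ℕ) (hk : A.card = k)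
    (hk4 : k ^ 2 ≤ 4 * (p - 2)) (hp4 : 4 * p ≤ k ^ 2 + 2 * k + 8) (hbig : 10 ^ 18 < k)
    (hinc : A.subsetSum.card < p) : ∃ b : ZMod p, b ≠ 0 ∧
      ∑ y ∈ A.image (fun a => b * a), |(ZMod.valMinAbs y)| ≤ (p : ℤ) - 2 := by
  classical
  have hk1 : 10 ^ 18 ≤ k - 1 := by omega
  obtain ⟨n, hn⟩ : ∃ n, k = n + 1 := ⟨k - 1, by omega⟩
  have hcard : (A.erase 0).card = k ∨ (A.erase 0).card = n := by
    by_cases h : (0 : ZMod p) ∈ A
    · right; rw [Finset.card_erase_of_mem h, hk]; omega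
    · left; rw [Finset.erase_eq_of_notMem h, hk]
  have h1 : (A.erase 0).card ^ 2 ≤ 4 * p := by
    rcases hcard with h | h
    · rw [h]; omega
    · rw [h]
      have : n ^ 2 ≤ k ^ 2 := Nat.pow_le_pow_left (by omega) 2
      omega
  have h2 : 4 * p ≤ (A.erase 0).card ^ 2 + 4 * (A.erase 0).card + 12 := by
    rcases hcard with h | h
    · rw [h]; omega
    · rw [h]
      rw [hn] at hp4
      have e : (n + 1) ^ 2 = n ^ 2 + 2 * n + 1 := by ring
      omega
  have h3 : 10 ^ 18 ≤ (A.erase 0).card := by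
    rcases hcard with h | h <;> rw [h] <;> omega
  obtain ⟨b, hb, hN⟩ := main_nonzero (A.erase 0) (Finset.notMem_erase 0 A)
    (by rw [Finset.subsetSum_erase_zero]; exact hinc) h1 h2 h3
  refine ⟨b, hb, ?_⟩
  have hinj : Function.Injective (fun a : ZMod p => b * a) :=
    fun x y h => mul_left_cancel₀ hb h
  have e1 : ∑ y ∈ A.image (fun a => b * a), |(ZMod.valMinAbs y)|
      = ∑ a ∈ A, |(ZMod.valMinAbs (b * a))| :=
    Finset.sum_image (fun x _ y _ h => hinj h)
  have e2 : ∑ y ∈ (A.erase 0).image (fun a => b * a), wt y = ∑ a ∈ A.erase 0, wt (b * a) :=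
    Finset.sum_image (fun x _ y _ h => hinj h)
  have e3 : ∑ a ∈ A.erase 0, |(ZMod.valMinAbs (b * a))| = ∑ a ∈ A, |(ZMod.valMinAbs (b * a))| :=
    Finset.sum_erase A (by simp)
  have e4 : ∑ a ∈ A.erase 0, |(ZMod.valMinAbs (b * a))|
      = ((∑ a ∈ A.erase 0, wt (b * a) : ℕ) : ℤ) := by
    push_cast
    exact Finset.sum_congr rfl (fun a _ => Int.abs_eq_natAbs _)
  rw [e2] at hN
  rw [e1, ← e3, e4]
  have : ((∑ a ∈ A.erase 0, wt (b * a) + 2 : ℕ) : ℤ) ≤ (p : ℤ) := by exact_mod_cast hN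
  push_cast at this ⊢
  linarith

/-- The version in which the empty sum is allowed. -/
theorem main_equiv_empty [hp : Fact p.Prime] (A : Finset (ZMod p)) (k : ℕ) (hk : A.card = k)
    (hk4 : k ^ 2 ≤ 4 * (p - 2)) (hp4 : 4 * p ≤ k ^ 2 + 2 * k + 8) (hbig : 10 ^ 18 < k) :
    ((∃ x : ZMod p, ∀ B ⊆ A, ∑ a ∈ B, a ≠ x) ↔
      ∃ b : ZMod p, b ≠ 0 ∧
        ∑ y ∈ A.image (fun a => b * a), |(ZMod.valMinAbs y)| ≤ (p : ℤ) - 2) := by
  classical
  have hne : NeZero p := ⟨hp.out.ne_zero⟩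
  constructor
  · rintro ⟨x, hx⟩
    refine main_key A k hk hk4 hp4 hbig ?_
    have h1 : x ∉ A.subsetSum := by
      intro h
      obtain ⟨B, hB, hs⟩ := Finset.mem_subsetSum_iff.mp h
      exact hx B hB hs
    have h2 : A.subsetSum ⊂ Finset.univ := by
      rw [Finset.ssubset_univ_iff]
      intro h3
      exact h1 (by rw [h3]; exact Finset.mem_univ _)
    have h3 := Finset.card_lt_card h2
    rwa [Finset.card_univ, ZMod.card] at h3
  · rintro ⟨b, hb, hN⟩
    obtain ⟨x, hx⟩ := easy_direction A b hb hN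
    exact ⟨x, fun B hB => hx B hB⟩

/-- numerical consequences of the size condition -/
theorem size_facts (p k : ℕ) (hp : p.Prime) (hlt : 10 ^ 40 < p)
    (hA : k = ⌊2 * Real.sqrt ((p : ℝ) - 2)⌋₊) :
    k ^ 2 ≤ 4 * (p - 2) ∧ 4 * p ≤ k ^ 2 + 2 * k + 8 ∧ 10 ^ 18 < k := by
  have hp2 : (2 : ℝ) ≤ p := by exact_mod_cast hp.two_le
  have hs0 : (0 : ℝ) ≤ (p : ℝ) - 2 := by linarith
  have hsq : Real.sqrt ((p : ℝ) - 2) ^ 2 = (p : ℝ) - 2 := Real.sq_sqrt hs0
  have hsn : 0 ≤ Real.sqrt ((p : ℝ) - 2) := Real.sqrt_nonneg _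
  have h1 : (k : ℝ) ≤ 2 * Real.sqrt ((p : ℝ) - 2) := by
    rw [hA]; exact Nat.floor_le (by linarith)
  have h2 : 2 * Real.sqrt ((p : ℝ) - 2) < (k : ℝ) + 1 := by
    rw [hA]; exact Nat.lt_floor_add_one _
  have hk0 : (0 : ℝ) ≤ k := Nat.cast_nonneg _
  have h3 : (k : ℝ) ^ 2 ≤ 4 * ((p : ℝ) - 2) := by nlinarith
  have h4 : 4 * ((p : ℝ) - 2) < ((k : ℝ) + 1) ^ 2 := by nlinarith
  have hkk : k ^ 2 ≤ 4 * (p - 2) := by
    have : ((k ^ 2 : ℕ) : ℝ) ≤ ((4 * (p - 2) : ℕ) : ℝ) := by
      push_cast [Nat.cast_sub hp.two_le]; exact h3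
    exact_mod_cast this
  have hlt4 : 4 * p < (k + 1) ^ 2 + 8 := by
    have : ((4 * p : ℕ) : ℝ) < (((k + 1) ^ 2 + 8 : ℕ) : ℝ) := by
      push_cast; linarith
    exact_mod_cast this
  have hring : (k + 1) ^ 2 = k ^ 2 + 2 * k + 1 := by ring
  have hbig : 10 ^ 18 < k := by
    by_contra hcon
    push Not at hcon
    have : (k + 1) ^ 2 ≤ (10 ^ 18 + 1) ^ 2 := Nat.pow_le_pow_left (by omega) 2
    omega
  exact ⟨hkk, by omega, hbig⟩

/-- Full statement for one prime. -/
theorem main_equiv [hp : Fact p.Prime] (A : Finset (ZMod p)) (k : ℕ) (hk : A.card = k)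
    (hk4 : k ^ 2 ≤ 4 * (p - 2)) (hp4 : 4 * p ≤ k ^ 2 + 2 * k + 8) (hbig : 10 ^ 18 < k) :
    ((∃ x : ZMod p, ∀ B : Finset (ZMod p), B ⊆ A → B.Nonempty → B.sum id ≠ x) ↔
      ∃ b : ZMod p, b ≠ 0 ∧
        ∑ y ∈ A.image (fun a => b * a), |(ZMod.valMinAbs y)| ≤ (p : ℤ) - 2) := by
  classical
  constructor
  · rintro ⟨x, hx⟩
    have hk1 : 10 ^ 18 ≤ k - 1 := by omega
    obtain ⟨n, hn⟩ : ∃ n, k = n + 1 := ⟨k - 1, by omega⟩
    by_cases hinc : A.subsetSum.card < p
    · exact main_key A k hk hk4 hp4 hbig hinc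
    · -- then every residue is a subset sum, so `x = 0`, and `A` is zero-sum free
      exfalso
      have hne : NeZero p := ⟨hp.out.ne_zero⟩
      have huniv : A.subsetSum = Finset.univ := by
        apply Finset.eq_univ_of_card
        rw [ZMod.card]
        have := Finset.card_le_univ A.subsetSum
        rw [ZMod.card] at this
        omega
      have hx0 : x = 0 := by
        have h1 : x ∈ A.subsetSum := by rw [huniv]; exact Finset.mem_univ _
        obtain ⟨B, hB, hs⟩ := Finset.mem_subsetSum_iff.mp h1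
        rcases Finset.eq_empty_or_nonempty B with h2 | h2
        · rw [h2, Finset.sum_empty] at hs; exact hs.symm
        · exact absurd hs (hx B hB h2)
      subst hx0
      have h0A : (0 : ZMod p) ∉ A := by
        intro h
        exact hx {0} (by simpa using h) (Finset.singleton_nonempty _) (by simp)
      obtain ⟨a, ha⟩ : A.Nonempty := Finset.card_pos.mp (by omega)
      have hA1 : (A.erase a).card = n := by rw [Finset.card_erase_of_mem ha, hk]; omega
      have h01 : (0 : ZMod p) ∉ A.erase a := fun h => h0A (Finset.mem_of_mem_erase h)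
      have hinc1 : (A.erase a).subsetSum.card < p := by
        have h1 : -a ∉ (A.erase a).subsetSum := by
          intro h
          obtain ⟨B, hB, hs⟩ := Finset.mem_subsetSum_iff.mp h
          have haB : a ∉ B := fun h2 => (Finset.notMem_erase a A) (hB h2)
          refine hx (insert a B) (Finset.insert_subset ha (hB.trans (Finset.erase_subset _ _)))
            (Finset.insert_nonempty _ _) ?_
          rw [Finset.sum_insert haB]
          have : B.sum id = ∑ b ∈ B, b := rfl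
          rw [this, hs]; simp
        have h2 : (A.erase a).subsetSum ⊂ Finset.univ := by
          rw [Finset.ssubset_univ_iff]
          intro h3
          exact h1 (by rw [h3]; exact Finset.mem_univ _)
        have h3 := Finset.card_lt_card h2
        rwa [Finset.card_univ, ZMod.card] at h3
      obtain ⟨y, hy, z, hz, hyz, hsum⟩ := exists_zero_sum (A.erase a) h01 hinc1
        (by
          rw [hA1]
          have : n ^ 2 ≤ k ^ 2 := Nat.pow_le_pow_left (by omega) 2
          omega)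
        (by
          rw [hA1]
          rw [hn] at hp4
          have e : (n + 1) ^ 2 = n ^ 2 + 2 * n + 1 := by ring
          omega)
        (by rw [hA1]; omega)
      refine hx {y, z} ?_ (Finset.insert_nonempty _ _) ?_
      · intro t ht
        rw [Finset.mem_insert, Finset.mem_singleton] at ht
        rcases ht with rfl | rfl
        · exact Finset.mem_of_mem_erase hy
        · exact Finset.mem_of_mem_erase hz
      · rw [Finset.sum_pair hyz]; exact hsum
  · rintro ⟨b, hb, hN⟩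
    obtain ⟨x, hx⟩ := easy_direction A b hb hN
    exact ⟨x, fun B hB _ => hx B hB⟩

end Pool.Agent.Lib.FDD
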